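import Pool.Agent.W25.UB.Stm2
import Pool.Agent.W398.UNFO

set_option autoImplicit false

namespace Pool.Agent.W240.UBVLN

open Finset Filter Topology Pool.Agent.W25.UB Pool.Agent.W25.UN

lemma tendsto_y : Tendsto (fun N : ℕ => Real.log ((2 * N : ℕ) : ℝ)) atTop atTop := by
  apply Real.tendsto_log_atTop.comp
  apply tendsto_natCast_atTop_atTop.comp
  exact tendsto_atTop_mono (fun n => by show n ≤ 2 * n; omega) tendsto_id

lemma ev_y (C : ℝ) : ∀ᶠ N : ℕ in atTop, C ≤ Real.log ((2 * N : ℕ) : ℝ) :=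
  tendsto_y.eventually_ge_atTop C

lemma y_bd {N : ℕ} (hN : 2 ≤ N) : Real.log N ≤ Real.log ((2 * N : ℕ) : ℝ) ∧
    Real.log ((2 * N : ℕ) : ℝ) ≤ 2 * Real.log N := by
  have h2 : (2 : ℝ) ≤ N := by exact_mod_cast hN
  have h0 : (0 : ℝ) < N := by linarith
  have e : Real.log ((2 * N : ℕ) : ℝ) = Real.log 2 + Real.log N := by
    push_cast
    rw [Real.log_mul (by norm_num) h0.ne']
  rw [e]
  have h3 : 0 < Real.log 2 := Real.log_pos (by norm_num)
  have h4 : Real.log 2 ≤ Real.log N := Real.log_le_log (by norm_num) h2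
  constructor <;> linarith

lemma ev_loglog (C : ℝ) (m : ℕ) : ∀ᶠ N : ℕ in atTop,
    C * (Real.log (Real.log ((2 * N : ℕ) : ℝ))) ^ m ≤ Real.log N := by
  have h := (Real.isLittleO_pow_log_id_atTop (n := m)).comp_tendsto tendsto_y
  have hc : (0 : ℝ) < 1 / (2 * (|C| + 1)) := by positivity
  have h1 := h.def hc
  filter_upwards [h1, ev_y 1, eventually_ge_atTop 2] with N hN hy hN2
  simp only [Function.comp_apply, id_eq, Real.norm_eq_abs] at hN
  set y := Real.log ((2 * N : ℕ) : ℝ) with hydef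
  have hy0 : 0 < y := by linarith
  rw [abs_of_pos hy0] at hN
  have h2 := (y_bd hN2).2
  rw [← hydef] at h2
  have h3 : C * (Real.log y) ^ m ≤ |C| * |(Real.log y) ^ m| := by
    rw [← abs_mul]
    exact le_abs_self _
  have h4 : |C| * |(Real.log y) ^ m| ≤ |C| * (1 / (2 * (|C| + 1)) * y) :=
    mul_le_mul_of_nonneg_left hN (abs_nonneg _)
  have h5 : |C| * (1 / (2 * (|C| + 1)) * y) ≤ y / 2 := by
    have h6 : |C| * (1 / (2 * (|C| + 1)) * y) = (|C| / (|C| + 1)) * (y / 2) := by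
      field_simp
    rw [h6]
    have h7 : |C| / (|C| + 1) ≤ 1 := by
      rw [div_le_one (by positivity)]
      linarith
    calc (|C| / (|C| + 1)) * (y / 2) ≤ 1 * (y / 2) :=
          mul_le_mul_of_nonneg_right h7 (by linarith)
      _ = y / 2 := one_mul _
  linarith

lemma DB_facts {N B D : ℕ} (hB : 1 ≤ B) (hy : (D : ℝ) + 3 ≤ Real.log ((2 * N : ℕ) : ℝ)) :
    D ≤ DB (2 * N) B ∧ 2 ≤ DB (2 * N) B ∧ (Real.log ((2 * N : ℕ) : ℝ)) ^ B - 1 ≤ (DB (2 * N) B : ℝ) ∧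
    (DB (2 * N) B : ℝ) ≤ (Real.log ((2 * N : ℕ) : ℝ)) ^ B ∧
    ⌈(Real.log ((2 * N : ℕ) : ℝ)) ^ B⌉₊ = DB (2 * N) B + 1 := by
  unfold DB
  set y := Real.log ((2 * N : ℕ) : ℝ) with hydef
  have hD0 : (0 : ℝ) ≤ D := Nat.cast_nonneg D
  have hy1 : 1 ≤ y := by linarith
  have h1 : y ≤ y ^ B := by
    calc y = y ^ 1 := (pow_one y).symm
      _ ≤ y ^ B := pow_le_pow_right₀ hy1 hB
  have h2 : D + 3 ≤ ⌈y ^ B⌉₊ := by
    have h3 : ((D + 3 : ℕ) : ℝ) ≤ (⌈y ^ B⌉₊ : ℝ) := by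
      push_cast
      exact (hy.trans h1).trans (Nat.le_ceil _)
    exact_mod_cast h3
  have h4 : ((⌈y ^ B⌉₊ - 1 : ℕ) : ℝ) = (⌈y ^ B⌉₊ : ℝ) - 1 := by
    rw [Nat.cast_sub (by omega)]
    simp
  refine ⟨by omega, by omega, ?_, ?_, by omega⟩
  · rw [h4]
    have := Nat.le_ceil (y ^ B)
    linarith
  · rw [h4]
    have := Nat.ceil_lt_add_one (show 0 ≤ y ^ B by positivity)
    linarith

lemma log_DB {N B : ℕ} (hy : 1 ≤ Real.log ((2 * N : ℕ) : ℝ)) (h2 : 2 ≤ DB (2 * N) B)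
    (h3 : (DB (2 * N) B : ℝ) ≤ (Real.log ((2 * N : ℕ) : ℝ)) ^ B) :
    0 ≤ Real.log (DB (2 * N) B : ℝ) ∧
    Real.log (DB (2 * N) B : ℝ) ≤ B * Real.log (Real.log ((2 * N : ℕ) : ℝ)) := by
  have h4 : (2 : ℝ) ≤ (DB (2 * N) B : ℝ) := by exact_mod_cast h2
  refine ⟨Real.log_nonneg (by linarith), ?_⟩
  rw [← Real.log_pow]
  exact Real.log_le_log (by linarith) h3

lemma om_le {k : ℕ} (α h : Fin k → ℤ) (hα : ∀ i, α i = 1 ∨ α i = -1) (N : ℕ) {p : ℕ}
    (hp : p.Prime) : (Om (uB α) (wB h N) p).card ≤ k + 1 := by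
  refine (Pool.Agent.W398.UNFO.rc k (uB α) (wB h N) p hp ?_).2.1
  intro j hj
  have h1 : uB α j = 1 ∨ uB α j = -1 := by
    rcases j with _ | i
    · exact Or.inl rfl
    · exact hα i
  have h2 : (p : ℤ) ∣ 1 := by
    rcases h1 with h1 | h1
    · rwa [h1] at hj
    · rw [h1] at hj
      exact (dvd_neg.1 hj)
  have h3 : p ∣ 1 := by exact_mod_cast h2
  exact hp.one_lt.ne' (Nat.dvd_one.1 h3)

lemma VV_bd {k : ℕ} (α h : Fin k → ℤ) (hα : ∀ i, α i = 1 ∨ α i = -1) (N D D' : ℕ)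
    (hD : 2 * (k + 1) ≤ D) :
    (∏ p ∈ QQ D D', (1 + (2 * (k + 1) : ℝ) / p))⁻¹ ≤ Pool.Agent.W25.UN.VV α h N D D' ∧
    Pool.Agent.W25.UN.VV α h N D D' ≤ 1 := by
  unfold Pool.Agent.W25.UN.VV
  have key : ∀ p ∈ QQ D D', (1 + (2 * (k + 1) : ℝ) / p)⁻¹ ≤
      1 - ((Om (uB α) (wB h N) p).card : ℝ) / p ∧
      1 - ((Om (uB α) (wB h N) p).card : ℝ) / p ≤ 1 := by
    intro p hp
    obtain ⟨hpp, hDp, -⟩ := QQ_prime hp
    have hp0 : (0 : ℝ) < p := by exact_mod_cast hpp.pos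
    have h1 : ((Om (uB α) (wB h N) p).card : ℝ) ≤ k + 1 := by
      exact_mod_cast om_le α h hα N hpp
    have h2 : (2 * (k + 1) : ℝ) ≤ p := by
      have : 2 * (k + 1) ≤ p := by omega
      exact_mod_cast this
    constructor
    · have h3 : ((Om (uB α) (wB h N) p).card : ℝ) / p ≤ (k + 1) / p :=
        div_le_div_of_nonneg_right h1 hp0.le
      have h4 : ((k : ℝ) + 1) / p ≤ 1 / 2 := by
        rw [div_le_iff₀ hp0]
        linarith
      have h5 : (0 : ℝ) ≤ ((k : ℝ) + 1) / p := by positivity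
      have h6 : (2 * (k + 1) : ℝ) / p = 2 * (((k : ℝ) + 1) / p) := by ring
      rw [h6, inv_le_comm₀ (by positivity) (by linarith)]
      rw [inv_le_iff_one_le_mul₀ (by linarith)]
      have h7 : 1 - ((k : ℝ) + 1) / p ≤ 1 - ((Om (uB α) (wB h N) p).card : ℝ) / p := by linarith
      nlinarith [mul_nonneg h5 (sub_nonneg.2 h4)]
    · have : 0 ≤ ((Om (uB α) (wB h N) p).card : ℝ) / p := by positivity
      linarith
  have hpos : ∀ p ∈ QQ D D', 0 ≤ (1 + (2 * (k + 1) : ℝ) / p)⁻¹ := fun p _ => by positivity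
  constructor
  · rw [← Finset.prod_inv_distrib]
    exact Finset.prod_le_prod hpos fun p hp => (key p hp).1
  · apply Finset.prod_le_one
    · intro p hp
      exact (hpos p hp).trans (key p hp).1
    · intro p hp
      exact (key p hp).2

lemma BD_bd (D : ℕ) : (∏ p ∈ (Icc 1 D).filter Nat.Prime, (1 + (2 : ℝ) / p))⁻¹ ≤
    Pool.Agent.H410R2.BD D := by
  unfold Pool.Agent.H410R2.BD
  rw [← Finset.prod_inv_distrib]
  apply Finset.prod_le_prod
  · intro p _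
    positivity
  · intro p hp
    rw [Finset.mem_filter] at hp
    have h2 : (2 : ℝ) ≤ p := by exact_mod_cast hp.2.two_le
    have h1 : (1 : ℝ) / p ≤ 1 / 2 := one_div_le_one_div_of_le (by norm_num) h2
    have h0 : (0 : ℝ) < 1 / p := by positivity
    have h3 : (2 : ℝ) / p = 2 * (1 / p) := by ring
    rw [h3, inv_le_comm₀ (by positivity) (by linarith), inv_le_iff_one_le_mul₀ (by linarith)]
    nlinarith

lemma tele (M : ℕ) : ∑ n ∈ Icc 2 M, (1 : ℝ) / (n * (n - 1)) ≤ 1 := by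
  have h : ∀ M : ℕ, 1 ≤ M → ∑ n ∈ Icc 2 M, (1 : ℝ) / (n * (n - 1)) = 1 - 1 / M := by
    intro M hM
    induction M, hM using Nat.le_induction with
    | base => simp
    | succ M hM ih =>
      rw [← Finset.insert_Icc_right_eq_Icc_add_one (by omega), Finset.sum_insert (by simp), ih]
      have h0 : (0 : ℝ) < M := by exact_mod_cast hM
      push_cast
      rw [show (M : ℝ) + 1 - 1 = M by ring]
      field_simp
      ring
  rcases Nat.eq_zero_or_pos M with rfl | hM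
  · simp
  · rw [h M hM]
    have : (0 : ℝ) ≤ 1 / M := by positivity
    linarith

lemma GG_le (P : Finset ℕ) (z : ℕ) (hP : ∀ p ∈ P, p.Prime) :
    GG P z ≤ ∏ p ∈ P, (1 + 1 / ((p : ℝ) - 1)) := by
  classical
  have h1 : ∀ d ∈ Pool.Agent.W25.UB.sq P z, Squarefree d ∧ d ≠ 0 ∧ d.primeFactors ⊆ P ∧
      1 / (Nat.totient d : ℝ) = ∏ p ∈ d.primeFactors, 1 / ((p : ℝ) - 1) := by
    intro d hd
    unfold Pool.Agent.W25.UB.sq at hd
    rw [Finset.mem_filter, Finset.mem_Icc] at hd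
    obtain ⟨⟨hd1, _⟩, hsq, hdp⟩ := hd
    refine ⟨hsq, by omega, fun p hp => ?_, ?_⟩
    · rw [Nat.mem_primeFactors] at hp
      exact hdp p hp.1 hp.2.1
    · rw [Nat.totient_eq_prod_factorization (by omega)]
      rw [Finsupp.prod, Nat.support_factorization]
      have h2 : ∀ p ∈ d.primeFactors, p ^ (d.factorization p - 1) * (p - 1) = p - 1 := by
        intro p hp
        rw [Nat.mem_primeFactors] at hp
        have h3 : d.factorization p = 1 := by
          have h4 := (Nat.squarefree_iff_factorization_le_one (by omega)).1 hsq p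
          have h5 := (hp.1.dvd_iff_one_le_factorization (by omega)).1 hp.2.1
          omega
        rw [h3]
        simp
      rw [Finset.prod_congr rfl h2]
      push_cast
      rw [one_div, ← Finset.prod_inv_distrib]
      refine Finset.prod_congr rfl fun p hp => ?_
      rw [Nat.mem_primeFactors] at hp
      rw [Nat.cast_sub hp.1.one_lt.le, Nat.cast_one, one_div]
  rw [Finset.prod_one_add]
  unfold GG
  rw [Finset.sum_congr rfl fun d hd => (h1 d hd).2.2.2]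
  have h5 : ∑ d ∈ Pool.Agent.W25.UB.sq P z, ∏ p ∈ d.primeFactors, 1 / ((p : ℝ) - 1) =
      ∑ S ∈ (Pool.Agent.W25.UB.sq P z).image Nat.primeFactors, ∏ p ∈ S, 1 / ((p : ℝ) - 1) := by
    rw [Finset.sum_image]
    intro d hd d' hd' he
    have e1 := Nat.prod_primeFactors_of_squarefree (h1 d hd).1
    have e2 := Nat.prod_primeFactors_of_squarefree (h1 d' hd').1
    rw [← e1, ← e2, he]
  rw [h5]
  apply Finset.sum_le_sum_of_subset_of_nonneg
  · intro S hS
    rw [Finset.mem_image] at hS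
    obtain ⟨d, hd, rfl⟩ := hS
    exact Finset.mem_powerset.2 (h1 d hd).2.2.1
  · intro S hS _
    apply Finset.prod_nonneg
    intro p hp
    have := (hP p (Finset.mem_powerset.1 hS hp)).one_lt
    have h6 : (1 : ℝ) < p := by exact_mod_cast this
    have h7 : (0 : ℝ) < (p : ℝ) - 1 := by linarith
    positivity

lemma GG_ge (P : Finset ℕ) (z : ℕ) (hz : 1 ≤ z) : 1 ≤ GG P z := by
  classical
  have h1 : 1 ∈ Pool.Agent.W25.UB.sq P z := by
    unfold Pool.Agent.W25.UB.sq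
    rw [Finset.mem_filter, Finset.mem_Icc]
    refine ⟨⟨le_rfl, hz⟩, squarefree_one, fun p hp h => ?_⟩
    exact absurd (Nat.dvd_one.1 h) hp.one_lt.ne'
  unfold GG
  calc (1 : ℝ) = 1 / (Nat.totient 1 : ℝ) := by simp
    _ ≤ ∑ d ∈ Pool.Agent.W25.UB.sq P z, 1 / (Nat.totient d : ℝ) :=
        Finset.single_le_sum (f := fun d : ℕ => 1 / (Nat.totient d : ℝ))
          (fun d _ => by positivity) h1

lemma ev_GG : ∀ᶠ N : ℕ in atTop, ∀ P : Finset ℕ, (∀ p ∈ P, p.Prime ∧ p ≤ 2 * N) →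
    ∏ p ∈ P, (1 + 1 / ((p : ℝ) - 1)) ≤ (Real.log N) ^ 2 := by
  obtain ⟨C, hC⟩ := Pool.Agent.Erdos456.Mert.mertens_inv
  filter_upwards [ev_log (2 * Real.exp (C + 1) + 1), eventually_ge_atTop 3] with N hl hN P hP
  have hlog0 : 0 < Real.log N := by
    have := Real.exp_pos (C + 1)
    linarith
  have h1 : ∏ p ∈ P, (1 + 1 / ((p : ℝ) - 1)) ≤ Real.exp (∑ p ∈ P, 1 / ((p : ℝ) - 1)) := by
    rw [Real.exp_sum]
    apply Finset.prod_le_prod
    · intro p hp
      have h6 : (1 : ℝ) < p := by exact_mod_cast (hP p hp).1.one_lt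
      have h7 : (0 : ℝ) < (p : ℝ) - 1 := by linarith
      positivity
    · intro p hp
      have := Real.add_one_le_exp (1 / ((p : ℝ) - 1))
      linarith
  have h2 : ∑ p ∈ P, 1 / ((p : ℝ) - 1) ≤
      ∑ p ∈ (Icc 1 (2 * N)).filter Nat.Prime, (1 : ℝ) / p + 1 := by
    have h3 : ∑ p ∈ P, 1 / ((p : ℝ) - 1) ≤
        ∑ p ∈ (Icc 1 (2 * N)).filter Nat.Prime, 1 / ((p : ℝ) - 1) := by
      apply Finset.sum_le_sum_of_subset_of_nonneg
      · intro p hp
        rw [Finset.mem_filter, Finset.mem_Icc]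
        exact ⟨⟨(hP p hp).1.one_lt.le, (hP p hp).2⟩, (hP p hp).1⟩
      · intro p hp _
        rw [Finset.mem_filter] at hp
        have h6 : (1 : ℝ) < p := by exact_mod_cast hp.2.one_lt
        have h7 : (0 : ℝ) < (p : ℝ) - 1 := by linarith
        positivity
    have h4 : ∑ p ∈ (Icc 1 (2 * N)).filter Nat.Prime, 1 / ((p : ℝ) - 1) =
        ∑ p ∈ (Icc 1 (2 * N)).filter Nat.Prime, (1 : ℝ) / p +
        ∑ p ∈ (Icc 1 (2 * N)).filter Nat.Prime, (1 : ℝ) / (p * (p - 1)) := by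
      rw [← Finset.sum_add_distrib]
      refine Finset.sum_congr rfl fun p hp => ?_
      rw [Finset.mem_filter] at hp
      have h6 : (1 : ℝ) < p := by exact_mod_cast hp.2.one_lt
      have h7 : (p : ℝ) - 1 ≠ 0 := by linarith
      have h8 : (p : ℝ) ≠ 0 := by linarith
      field_simp
      ring
    have h5 : ∑ p ∈ (Icc 1 (2 * N)).filter Nat.Prime, (1 : ℝ) / (p * (p - 1)) ≤
        ∑ n ∈ Icc 2 (2 * N), (1 : ℝ) / (n * (n - 1)) := by
      apply Finset.sum_le_sum_of_subset_of_nonneg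
      · intro p hp
        rw [Finset.mem_filter, Finset.mem_Icc] at hp
        rw [Finset.mem_Icc]
        exact ⟨hp.2.two_le, hp.1.2⟩
      · intro n hn _
        rw [Finset.mem_Icc] at hn
        have h6 : (2 : ℝ) ≤ n := by exact_mod_cast hn.1
        have h7 : (0 : ℝ) < (n : ℝ) - 1 := by linarith
        positivity
    have := tele (2 * N)
    linarith
  have h3 := (abs_le.1 (hC (2 * N) (by omega))).2
  have hy := y_bd (show 2 ≤ N by omega)
  have hy0 : 0 < Real.log ((2 * N : ℕ) : ℝ) := by linarith [hy.1]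
  have h4 : ∑ p ∈ P, 1 / ((p : ℝ) - 1) ≤ Real.log (Real.log ((2 * N : ℕ) : ℝ)) + (C + 1) := by
    linarith
  calc ∏ p ∈ P, (1 + 1 / ((p : ℝ) - 1)) ≤ Real.exp (∑ p ∈ P, 1 / ((p : ℝ) - 1)) := h1
    _ ≤ Real.exp (Real.log (Real.log ((2 * N : ℕ) : ℝ)) + (C + 1)) := Real.exp_le_exp.2 h4
    _ = Real.log ((2 * N : ℕ) : ℝ) * Real.exp (C + 1) := by
        rw [Real.exp_add, Real.exp_log hy0]
    _ ≤ (2 * Real.log N) * Real.exp (C + 1) :=
        mul_le_mul_of_nonneg_right hy.2 (Real.exp_pos _).le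
    _ ≤ (Real.log N) ^ 2 := by nlinarith [Real.exp_pos (C + 1)]

lemma PLVV_bd {P : Finset ℕ} (hP : ∀ p ∈ P, p.Prime) (Cl : Finset ℕ) :
    Pool.Agent.W23.PL.VV P ≤ Pool.Agent.W23.PL.VV (P \ Cl) ∧
    Pool.Agent.W23.PL.VV (P \ Cl) ≤ 1 := by
  classical
  have key : ∀ p ∈ P, 0 ≤ 1 - 1 / (p : ℝ) ∧ 1 - 1 / (p : ℝ) ≤ 1 := by
    intro p hp
    have h6 : (1 : ℝ) < p := by exact_mod_cast (hP p hp).one_lt
    have h7 : (1 : ℝ) / p ≤ 1 := by
      rw [div_le_one (by linarith)]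
      exact h6.le
    have h8 : (0 : ℝ) ≤ 1 / p := by positivity
    constructor <;> linarith
  unfold Pool.Agent.W23.PL.VV
  constructor
  · rw [← Finset.prod_sdiff (sdiff_subset : P \ Cl ⊆ P)]
    have h1 : ∏ p ∈ P \ (P \ Cl), (1 - 1 / (p : ℝ)) ≤ 1 := by
      apply Finset.prod_le_one
      · intro p hp
        exact (key p (Finset.mem_sdiff.1 hp).1).1
      · intro p hp
        exact (key p (Finset.mem_sdiff.1 hp).1).2
    have h2 : 0 ≤ ∏ p ∈ P \ Cl, (1 - 1 / (p : ℝ)) :=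
      Finset.prod_nonneg fun p hp => (key p (Finset.mem_sdiff.1 hp).1).1
    calc (∏ p ∈ P \ (P \ Cl), (1 - 1 / (p : ℝ))) * ∏ p ∈ P \ Cl, (1 - 1 / (p : ℝ))
        ≤ 1 * ∏ p ∈ P \ Cl, (1 - 1 / (p : ℝ)) := mul_le_mul_of_nonneg_right h1 h2
      _ = _ := one_mul _
  · apply Finset.prod_le_one
    · intro p hp
      exact (key p (Finset.mem_sdiff.1 hp).1).1
    · intro p hp
      exact (key p (Finset.mem_sdiff.1 hp).1).2

lemma prod_mono_set {S T : Finset ℕ} {f : ℕ → ℝ} (h : S ⊆ T) (hf : ∀ p, 1 ≤ f p) :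
    ∏ p ∈ S, f p ≤ ∏ p ∈ T, f p := by
  rw [← Finset.prod_sdiff h]
  have h1 : 1 ≤ ∏ p ∈ T \ S, f p := by
    calc (1 : ℝ) = ∏ p ∈ T \ S, (1 : ℝ) := by simp
      _ ≤ _ := Finset.prod_le_prod (fun _ _ => zero_le_one) fun p _ => hf p
  have h2 : 0 ≤ ∏ p ∈ S, f p := Finset.prod_nonneg fun p _ => zero_le_one.trans (hf p)
  calc ∏ p ∈ S, f p = 1 * ∏ p ∈ S, f p := (one_mul _).symm
    _ ≤ _ := mul_le_mul_of_nonneg_right h1 h2

lemma prodB (c : ℝ) (hc : 0 ≤ c) (B : ℕ) (hB : 1 ≤ B) (r : ℝ) (hr : 0 < r) :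
    ∀ᶠ N : ℕ in atTop, ∏ p ∈ (Icc 1 (DB (2 * N) B)).filter Nat.Prime, (1 + c / (p : ℝ)) ≤
      r * Real.log N := by
  obtain ⟨C, hC, m, h⟩ := Pool.Agent.H361R2.prodBound c hc
  filter_upwards [ev_loglog (C * (B : ℝ) ^ m / r) m, ev_y 5] with N hN hy
  obtain ⟨h1, h2, h3, h4, -⟩ := DB_facts (N := N) (D := 2) hB (by
    have e2 : ((2 : ℕ) : ℝ) = 2 := by norm_num
    rw [e2]
    linarith)
  have hD2 : 2 ≤ DB (2 * N) B := h2
  -- the case DB = 2 is avoided as y ≥ 5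
  have hD3 : (3 : ℝ) ≤ (DB (2 * N) B : ℝ) := by
    have h5 : Real.log ((2 * N : ℕ) : ℝ) ≤ Real.log ((2 * N : ℕ) : ℝ) ^ B := by
      calc Real.log ((2 * N : ℕ) : ℝ) = Real.log ((2 * N : ℕ) : ℝ) ^ 1 := (pow_one _).symm
        _ ≤ _ := pow_le_pow_right₀ (by linarith) hB
    linarith
  have h5 := h (DB (2 * N) B : ℝ) hD3
  rw [Nat.floor_natCast] at h5
  obtain ⟨h6, h7⟩ := log_DB (by linarith) hD2 h4
  refine h5.trans ?_
  have h8 : (Real.log (DB (2 * N) B : ℝ)) ^ m ≤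
      ((B : ℝ) * Real.log (Real.log ((2 * N : ℕ) : ℝ))) ^ m := pow_le_pow_left₀ h6 h7 m
  have h9 : C * (Real.log (DB (2 * N) B : ℝ)) ^ m ≤
      C * ((B : ℝ) * Real.log (Real.log ((2 * N : ℕ) : ℝ))) ^ m :=
    mul_le_mul_of_nonneg_left h8 hC.le
  refine h9.trans ?_
  rw [mul_pow]
  have h10 : C * ((B : ℝ) ^ m * Real.log (Real.log ((2 * N : ℕ) : ℝ)) ^ m) =
      r * (C * (B : ℝ) ^ m / r * Real.log (Real.log ((2 * N : ℕ) : ℝ)) ^ m) := by
    field_simp
  rw [h10]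
  exact mul_le_mul_of_nonneg_left hN hr.le

theorem main (hVLB : Pool.Agent.W23.PL.St_VLB) : St_VLN := by
  classical
  intro k B D ε₁ ρ hB hD hε₁ hε₁' hρ α h hα
  obtain ⟨c₂, hc₂, hV⟩ := hVLB
  obtain ⟨N₀, hN₀⟩ := hV B hB ε₁ hε₁ hε₁'
  filter_upwards [prodB (2 * (k + 1) : ℝ) (by positivity) B hB 1 one_pos,
    prodB 2 (by norm_num) B hB ρ hρ, ev_GG, ev_y ((D : ℝ) + 5), ev_log (2 / c₂ + 1),
    eventually_ge_atTop (max N₀ 3), ev_y (Real.exp 1)] with N hP1 hP2 hGG hy hl hNN hye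
  have hN0 : N₀ ≤ 2 * N := by
    have := le_max_left N₀ 3
    omega
  have hN3 : 3 ≤ N := (le_max_right N₀ 3).trans hNN
  obtain ⟨h1, h2, h3, h4, h5⟩ := DB_facts (N := N) (D := D) hB (by linarith)
  have hlog0 : 0 < Real.log N := by
    have : 0 < 2 / c₂ := by positivity
    linarith
  have hD0 : (0 : ℝ) ≤ D := Nat.cast_nonneg D
  refine ⟨h1, h3, h4, ?_, (VV_bd α h hα N D _ hD).2, ?_, ?_, ?_⟩
  · -- lower bound of the presieving product
    refine le_trans ?_ (VV_bd α h hα N D _ hD).1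
    rw [one_div]
    have hpos : 0 < ∏ p ∈ QQ D (DB (2 * N) B), (1 + (2 * (k + 1) : ℝ) / p) :=
      Finset.prod_pos fun p _ => by positivity
    apply inv_anti₀ hpos
    calc ∏ p ∈ QQ D (DB (2 * N) B), (1 + (2 * (k + 1) : ℝ) / p)
        ≤ ∏ p ∈ (Icc 1 (DB (2 * N) B)).filter Nat.Prime, (1 + (2 * (k + 1) : ℝ) / p) := by
          apply prod_mono_set
          · intro p hp
            obtain ⟨hp1, hp2, hp3⟩ := QQ_prime hp
            rw [Finset.mem_filter, Finset.mem_Icc]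
            exact ⟨⟨hp1.one_lt.le, hp3⟩, hp1⟩
          · intro p
            have : (0 : ℝ) ≤ (2 * (k + 1) : ℝ) / p := by positivity
            linarith
      _ ≤ 1 * Real.log N := hP1
      _ = Real.log N := one_mul _
  · -- BD
    have hb := BD_bd (DB (2 * N) B)
    have hpos : 0 < ∏ p ∈ (Icc 1 (DB (2 * N) B)).filter Nat.Prime, (1 + (2 : ℝ) / p) :=
      Finset.prod_pos fun p _ => by positivity
    have hρl : 0 < ρ * Real.log N := by positivity
    calc (1 : ℝ) = (ρ * Real.log N)⁻¹ * (ρ * Real.log N) := (inv_mul_cancel₀ hρl.ne').symm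
      _ ≤ Pool.Agent.H410R2.BD (DB (2 * N) B) * (ρ * Real.log N) := by
          apply mul_le_mul_of_nonneg_right _ hρl.le
          exact (inv_anti₀ hpos hP2).trans hb
  · -- the primes of the weights
    intro Cl
    have hX : (1 : ℝ) ≤ ((2 * N : ℕ) : ℝ) := by
      have : 1 ≤ 2 * N := by omega
      exact_mod_cast this
    have hX0 : (0 : ℝ) < ((2 * N : ℕ) : ℝ) := by linarith
    have hy0 : 0 < Real.log ((2 * N : ℕ) : ℝ) := by linarith
    have hprime : ∀ p ∈ Pool.Agent.W23.PL.P1 (2 * N) B ε₁, p.Prime := by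
      intro p hp
      unfold Pool.Agent.W23.PL.P1 at hp
      exact (Finset.mem_filter.1 hp).2.1
    have hlt : ∀ p : ℕ, p.Prime →
        (Pool.Agent.W23.DC.tt (2 * N) p < ε₁ ↔ (p : ℝ) < ((2 * N : ℕ) : ℝ) ^ ε₁) := by
      intro p hp
      have hp0 : (0 : ℝ) < p := by exact_mod_cast hp.pos
      unfold Pool.Agent.W23.DC.tt
      rw [div_lt_iff₀ hy0, Real.rpow_def_of_pos hX0, mul_comm (Real.log _) ε₁,
        ← Real.log_lt_iff_lt_exp hp0]
    refine ⟨?_, ?_, ?_, (PLVV_bd hprime Cl).2⟩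
    · intro p hp
      have hp' := (Finset.mem_sdiff.1 hp).1
      have hpp := hprime p hp'
      unfold Pool.Agent.W23.PL.P1 at hp'
      rw [Finset.mem_filter] at hp'
      obtain ⟨-, -, hp1, hp2⟩ := hp'
      refine ⟨hpp, ?_, (hlt p hpp).1 hp2⟩
      have := Nat.ceil_le.2 hp1
      omega
    · intro p hpp hDp hpε hpC
      rw [Finset.mem_sdiff]
      refine ⟨?_, hpC⟩
      unfold Pool.Agent.W23.PL.P1
      rw [Finset.mem_filter, Finset.mem_Icc]
      refine ⟨⟨hpp.one_lt.le, ?_⟩, hpp, ?_, (hlt p hpp).2 hpε⟩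
      · have h6 : ((2 * N : ℕ) : ℝ) ^ ε₁ ≤ ((2 * N : ℕ) : ℝ) ^ (1 : ℝ) :=
          Real.rpow_le_rpow_of_exponent_le hX hε₁'
        rw [Real.rpow_one] at h6
        have h7 : (p : ℝ) ≤ ((2 * N : ℕ) : ℝ) := by linarith
        exact_mod_cast h7
      · apply Nat.ceil_le.1
        omega
    · refine le_trans ?_ (PLVV_bd hprime Cl).1
      refine le_trans ?_ (hN₀ (2 * N) hN0).1
      have h6 := (y_bd (show 2 ≤ N by omega)).2
      have h7 : 1 ≤ Real.log (Real.log ((2 * N : ℕ) : ℝ)) := by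
        rw [Real.le_log_iff_exp_le hy0]
        exact hye
      have hB1 : (1 : ℝ) ≤ B := by exact_mod_cast hB
      have h8 : (1 : ℝ) ≤ B * Real.log (Real.log ((2 * N : ℕ) : ℝ)) := by nlinarith
      have h9 : ε₁ * Real.log ((2 * N : ℕ) : ℝ) ≤ 2 * Real.log N := by
        calc ε₁ * Real.log ((2 * N : ℕ) : ℝ) ≤ 1 * Real.log ((2 * N : ℕ) : ℝ) :=
              mul_le_mul_of_nonneg_right hε₁' hy0.le
          _ ≤ 2 * Real.log N := by linarith
      have h10 : 1 / (2 * Real.log N) ≤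
          B * Real.log (Real.log ((2 * N : ℕ) : ℝ)) / (ε₁ * Real.log ((2 * N : ℕ) : ℝ)) :=
        div_le_div₀ (by linarith) h8 (by positivity) h9
      refine le_trans ?_ (mul_le_mul_of_nonneg_left h10 hc₂.le)
      have h11 : 2 / c₂ ≤ Real.log N := by linarith
      rw [div_le_iff₀ hc₂] at h11
      rw [mul_one_div, div_le_div_iff₀ (by positivity) (by positivity)]
      nlinarith
  · intro P z hz hP
    exact ⟨GG_ge P z hz, (GG_le P z fun p hp => (hP p hp).1).trans (hGG P hP)⟩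

end Pool.Agent.W240.UBVLN
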