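import Pool.Agent.W842.BV.Stms

/-! Project BV: the bound of the partial sums of binomial coefficients. -/

set_option autoImplicit false

namespace Pool.Agent.W240.BV

theorem t_BIN : Pool.Agent.W842.BV.S_BIN := by
  intro m d hd hdm
  have hd0 : (0 : ℝ) < d := by exact_mod_cast hd
  have hm0 : (0 : ℝ) < m := lt_of_lt_of_le hd0 (by exact_mod_cast hdm)
  set q : ℝ := d / m with hq
  have hq0 : 0 < q := div_pos hd0 hm0
  have hq1 : q ≤ 1 := by
    rw [hq, div_le_one hm0]
    exact_mod_cast hdm
  have h1 : ((∑ i ∈ Finset.Iic d, m.choose i : ℕ) : ℝ) * q ^ d ≤ (1 + q) ^ m := by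
    push_cast
    rw [Finset.sum_mul]
    calc ∑ i ∈ Finset.Iic d, (m.choose i : ℝ) * q ^ d
        ≤ ∑ i ∈ Finset.Iic d, (m.choose i : ℝ) * q ^ i := by
          refine Finset.sum_le_sum fun i hi => ?_
          refine mul_le_mul_of_nonneg_left ?_ (Nat.cast_nonneg _)
          exact pow_le_pow_of_le_one hq0.le hq1 (Finset.mem_Iic.1 hi)
      _ ≤ ∑ i ∈ Finset.range (m + 1), (m.choose i : ℝ) * q ^ i := by
          refine Finset.sum_le_sum_of_subset_of_nonneg ?_ fun i _ _ => by positivity
          intro i hi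
          rw [Finset.mem_Iic] at hi
          rw [Finset.mem_range]
          omega
      _ = (1 + q) ^ m := by
          rw [add_comm 1 q, add_pow]
          refine Finset.sum_congr rfl fun i _ => ?_
          rw [one_pow, mul_one, mul_comm]
  have h2 : (1 + q) ^ m ≤ Real.exp 1 ^ d := by
    have h3 : 1 + q ≤ Real.exp q := by linarith [Real.add_one_le_exp q]
    calc (1 + q) ^ m ≤ (Real.exp q) ^ m := pow_le_pow_left₀ (by linarith) h3 m
      _ = Real.exp 1 ^ d := by
          rw [← Real.exp_nat_mul, ← Real.exp_nat_mul]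
          congr 1
          rw [hq]
          field_simp
  have h4 : (Real.exp 1 * m / d) ^ d * q ^ d = Real.exp 1 ^ d := by
    rw [← mul_pow]
    congr 1
    rw [hq]
    field_simp
  have h5 : 0 < q ^ d := pow_pos hq0 d
  refine le_of_mul_le_mul_right ?_ h5
  rw [h4]
  exact h1.trans h2

end Pool.Agent.W240.BV
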