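import Pool.Agent.W842.BV.Stms2

/-! Project BV: the mixed cases of the bound for the VC-dimension. -/

set_option autoImplicit false

namespace Pool.Agent.W240.BV

open Finset
open Pool.Agent.W842.BV

/-- reindexed linear algebra -/
theorem core (hV : S_VLB) {D : ℕ} {ι : Type} [Fintype ι] [DecidableEq ι] (b : ι → Fin D → ℤ)
    (j₀ : ι) (h : ∀ i, i ≠ j₀ → ∃ γ : Fin D → ℤ,
      (∀ j, i ≠ j → ∑ h, γ h ^ 2 + ∑ h, γ h * b j h = 0) ∧
        ∑ h, γ h ^ 2 + ∑ h, γ h * b i h ≠ 0) : Fintype.card ι ≤ D + 1 := by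
  have h' : ∀ i, ∃ γ : Fin D → ℤ, i ≠ j₀ →
      (∀ j, i ≠ j → ∑ h, γ h ^ 2 + ∑ h, γ h * b j h = 0) ∧
        ∑ h, γ h ^ 2 + ∑ h, γ h * b i h ≠ 0 := by
    intro i
    by_cases hi : i = j₀
    · exact ⟨0, fun h => absurd hi h⟩
    · obtain ⟨γ, hγ⟩ := h i hi
      exact ⟨γ, fun _ => hγ⟩
  choose γ hγ using h'
  set e := (Fintype.equivFin ι).symm with he
  refine hV D (Fintype.card ι) (fun j => b (e j)) (e.symm j₀) (fun i => ∑ h, γ (e i) h ^ 2)
    (fun i => γ (e i)) ?_ ?_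
  · intro i j hi hij
    exact (hγ (e i) (fun h => hi (by rw [← h, Equiv.symm_apply_apply]))).1 (e j)
      (fun h => hij (e.injective h))
  · intro i hi
    exact (hγ (e i) (fun h => hi (by rw [← h, Equiv.symm_apply_apply]))).2

/-- two sets seen from a third part -/
theorem core2 (hV : S_VLB) {D : ℕ} (hD : 1 ≤ D) {P Q V : Type} [DecidableEq P] [DecidableEq Q]
    (A : Finset P) (B : Finset Q) (hA : A.Nonempty) (hB : B.Nonempty)
    (adA : P → V → Prop) (adB : Q → V → Prop)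
    (hsh : ∀ T₁ ⊆ A, ∀ T₂ ⊆ B, T₁.Nonempty → T₂.Nonempty → ∃ v : V,
      (∀ p ∈ A, (p ∈ T₁ ↔ adA p v)) ∧ (∀ q ∈ B, (q ∈ T₂ ↔ adB q v)))
    (hG : ∀ v₀ : V, (∀ p ∈ A, adA p v₀) → (∀ q ∈ B, adB q v₀) →
      ∃ (bA : P → Fin D → ℤ) (bB : Q → Fin D → ℤ), ∀ v : V, (∃ p ∈ A, adA p v) →
        ∃ γ : Fin D → ℤ, (∀ p ∈ A, (adA p v ↔ ∑ h, γ h ^ 2 + ∑ h, γ h * bA p h = 0)) ∧
          (∀ q ∈ B, (adB q v ↔ ∑ h, γ h ^ 2 + ∑ h, γ h * bB q h = 0))) :
    A.card + B.card ≤ D + 1 := by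
  by_cases h1 : A.card = 1 ∧ B.card = 1
  · omega
  have hA1 : 1 ≤ A.card := hA.card_pos
  have hB1 : 1 ≤ B.card := hB.card_pos
  -- the exceptional point
  obtain ⟨j₀, hj₀⟩ : ∃ j₀ : A ⊕ B, (∀ p : A, Sum.inl p ≠ j₀ → 2 ≤ A.card) ∧
      (∀ q : B, Sum.inr q ≠ j₀ → 2 ≤ B.card) := by
    by_cases hA2 : A.card = 1
    · obtain ⟨p, hp⟩ := Finset.card_eq_one.1 hA2
      refine ⟨Sum.inl ⟨p, by rw [hp]; exact mem_singleton_self p⟩, ?_, fun q _ => by omega⟩
      intro p' hp'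
      exfalso
      apply hp'
      congr 1
      apply Subtype.ext
      exact Finset.mem_singleton.1 (hp ▸ p'.2 : (p' : P) ∈ ({p} : Finset P))
    · by_cases hB2 : B.card = 1
      · obtain ⟨q, hq⟩ := Finset.card_eq_one.1 hB2
        refine ⟨Sum.inr ⟨q, by rw [hq]; exact mem_singleton_self q⟩, fun p _ => by omega, ?_⟩
        intro q' hq'
        exfalso
        apply hq'
        congr 1
        apply Subtype.ext
        exact Finset.mem_singleton.1 (hq ▸ q'.2 : (q' : Q) ∈ ({q} : Finset Q))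
      · obtain ⟨p, hp⟩ := hA
        exact ⟨Sum.inl ⟨p, hp⟩, fun _ _ => by omega, fun _ _ => by omega⟩
  obtain ⟨v₀, hv1, hv2⟩ := hsh A (Subset.refl _) B (Subset.refl _) hA hB
  obtain ⟨bA, bB, hb⟩ := hG v₀ (fun p hp => (hv1 p hp).1 hp) (fun q hq => (hv2 q hq).1 hq)
  have hfin := core hV (ι := A ⊕ B) (Sum.elim (fun p => bA p.1) (fun q => bB q.1)) j₀ ?_
  · rw [Fintype.card_sum, Fintype.card_coe, Fintype.card_coe] at hfin
    exact hfin
  · intro i hi
    rcases i with p | q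
    · have hA2 := hj₀.1 p hi
      have hne : (A.erase p.1).Nonempty := by
        rw [← card_pos, card_erase_of_mem p.2]
        omega
      obtain ⟨v, h3, h4⟩ := hsh (A.erase p.1) (erase_subset _ _) B (Subset.refl _) hne hB
      obtain ⟨p', hp'⟩ := hne
      have hp'A := mem_of_mem_erase hp'
      obtain ⟨γ, h5, h6⟩ := hb v ⟨p', hp'A, (h3 p' hp'A).1 hp'⟩
      refine ⟨γ, ?_, ?_⟩
      · intro j hj
        rcases j with p2 | q2
        · refine (h5 p2.1 p2.2).1 ((h3 p2.1 p2.2).1 (mem_erase.2 ⟨fun h => hj ?_, p2.2⟩))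
          rw [Subtype.ext h]
        · exact (h6 q2.1 q2.2).1 ((h4 q2.1 q2.2).1 q2.2)
      · intro h0
        have h7 := (h3 p.1 p.2).2 ((h5 p.1 p.2).2 h0)
        exact notMem_erase _ _ h7
    · have hB2 := hj₀.2 q hi
      have hne : (B.erase q.1).Nonempty := by
        rw [← card_pos, card_erase_of_mem q.2]
        omega
      obtain ⟨v, h3, h4⟩ := hsh A (Subset.refl _) (B.erase q.1) (erase_subset _ _) hA hne
      obtain ⟨p', hp'⟩ := hA
      obtain ⟨γ, h5, h6⟩ := hb v ⟨p', hp', (h3 p' hp').1 hp'⟩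
      refine ⟨γ, ?_, ?_⟩
      · intro j hj
        rcases j with p2 | q2
        · exact (h5 p2.1 p2.2).1 ((h3 p2.1 p2.2).1 p2.2)
        · refine (h6 q2.1 q2.2).1 ((h4 q2.1 q2.2).1 (mem_erase.2 ⟨fun h => hj ?_, q2.2⟩))
          rw [Subtype.ext h]
      · intro h0
        have h7 := (h4 q.1 q.2).2 ((h6 q.1 q.2).2 h0)
        exact notMem_erase _ _ h7

/-! ### The sphere -/

theorem sph_sum {D r : ℕ} {a : Fin D → ℤ} (h : a ∈ sph D r) : ∑ h, a h ^ 2 = (r : ℤ) := by
  unfold sph at h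
  exact (mem_filter.1 h).2

theorem sph_mem {D r : ℕ} {a : Fin D → ℤ} (h : ∑ h, a h ^ 2 = (r : ℤ)) : a ∈ sph D r := by
  unfold sph
  rw [mem_filter, Fintype.mem_piFinset]
  refine ⟨fun i => ?_, h⟩
  have h1 : a i ^ 2 ≤ r := by
    rw [← h]
    exact single_le_sum (f := fun i => a i ^ 2) (fun i _ => sq_nonneg _) (mem_univ i)
  rw [mem_Icc]
  constructor
  · nlinarith [sq_nonneg (a i + 1)]
  · nlinarith [sq_nonneg (a i - 1)]

theorem sph_le {D r R : ℕ} (hr : r ≤ R ^ 2) {a : Fin D → ℤ} (h : a ∈ sph D r) (i : Fin D) :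
    |a i| ≤ R := by
  have h1 : a i ^ 2 ≤ r := by
    rw [← sph_sum h]
    exact single_le_sum (f := fun i => a i ^ 2) (fun i _ => sq_nonneg _) (mem_univ i)
  have h2 : (r : ℤ) ≤ (R : ℤ) ^ 2 := by exact_mod_cast hr
  exact abs_le_of_sq_le_sq' (h1.trans h2) (Int.natCast_nonneg R) |> abs_le.2

/-- small integers modulo `M` -/
theorem small {M : ℕ} {x : ℤ} (h : ((x : ℤ) : ZMod M) = 0) (hx : |x| < M) : x = 0 := by
  rw [ZMod.intCast_zmod_eq_zero_iff_dvd] at h
  exact Int.eq_zero_of_abs_lt_dvd h hx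

/-- membership in a sphere modulo `M` -/
theorem plus {D r R M : ℕ} (hr : r ≤ R ^ 2) (z c : Fin D → ZMod M) (e : Fin D → ℤ) (E : ℤ)
    (he : ∀ h, |e h| ≤ E) (hE : E + R < M) (hz : ∀ h, z h = c h + ((e h : ℤ) : ZMod M)) :
    (∃ b ∈ sph D r, z = fun h => c h + ((b h : ℤ) : ZMod M)) ↔ ∑ h, e h ^ 2 = (r : ℤ) := by
  constructor
  · rintro ⟨b, hb, hb'⟩
    have h1 : b = e := by
      funext h
      have h2 := congrFun hb' h
      rw [hz h] at h2
      have h3 : ((b h - e h : ℤ) : ZMod M) = 0 := by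
        push_cast
        have := add_left_cancel h2
        rw [this, sub_self]
      have h4 := sph_le hr hb h
      have h5 := small h3 (by
        have h6 := he h
        rw [abs_le] at h4 h6
        rw [abs_lt]
        constructor <;> linarith)
      linarith
    rw [← h1]
    exact sph_sum hb
  · intro h
    exact ⟨e, sph_mem h, funext hz⟩

theorem minus {D r R M : ℕ} (hr : r ≤ R ^ 2) (z c : Fin D → ZMod M) (e : Fin D → ℤ) (E : ℤ)
    (he : ∀ h, |e h| ≤ E) (hE : E + R < M) (hz : ∀ h, z h = c h - ((e h : ℤ) : ZMod M)) :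
    (∃ b ∈ sph D r, z = fun h => c h - ((b h : ℤ) : ZMod M)) ↔ ∑ h, e h ^ 2 = (r : ℤ) := by
  constructor
  · rintro ⟨b, hb, hb'⟩
    have h1 : b = e := by
      funext h
      have h2 := congrFun hb' h
      rw [hz h] at h2
      have h3 : ((b h - e h : ℤ) : ZMod M) = 0 := by
        push_cast
        have := sub_right_injective h2
        rw [this, sub_self]
      have h4 := sph_le hr hb h
      have h5 := small h3 (by
        have h6 := he h
        rw [abs_le] at h4 h6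
        rw [abs_lt]
        constructor <;> linarith)
      linarith
    rw [← h1]
    exact sph_sum hb
  · intro h
    exact ⟨e, sph_mem h, funext hz⟩

/-! ### Expansion of squares -/

theorem ex1 {D r : ℕ} {a γ : Fin D → ℤ} (ha : a ∈ sph D r) :
    ∑ h, (a h + γ h) ^ 2 = (r : ℤ) ↔ ∑ h, γ h ^ 2 + ∑ h, γ h * (2 * a h) = 0 := by
  have h1 : ∑ h, (a h + γ h) ^ 2 = (∑ h, γ h ^ 2 + ∑ h, γ h * (2 * a h)) + ∑ h, a h ^ 2 := by
    rw [← sum_add_distrib, ← sum_add_distrib]
    exact sum_congr rfl fun h _ => by ring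
  rw [h1, sph_sum ha]
  constructor <;> intro h <;> linarith

theorem ex2 {D r : ℕ} {a γ : Fin D → ℤ} (ha : a ∈ sph D r) :
    ∑ h, (a h - γ h) ^ 2 = (r : ℤ) ↔ ∑ h, γ h ^ 2 + ∑ h, γ h * (-2 * a h) = 0 := by
  have h1 : ∑ h, (a h - γ h) ^ 2 = (∑ h, γ h ^ 2 + ∑ h, γ h * (-2 * a h)) + ∑ h, a h ^ 2 := by
    rw [← sum_add_distrib, ← sum_add_distrib]
    exact sum_congr rfl fun h _ => by ring
  rw [h1, sph_sum ha]
  constructor <;> intro h <;> linarith

theorem ex3 {D r : ℕ} {a γ : Fin D → ℤ} (ha : a ∈ sph D r) :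
    ∑ h, (a h - 2 * γ h) ^ 2 = (r : ℤ) ↔ ∑ h, γ h ^ 2 + ∑ h, γ h * (-1 * a h) = 0 := by
  have h1 : ∑ h, (a h - 2 * γ h) ^ 2 = 4 * (∑ h, γ h ^ 2 + ∑ h, γ h * (-1 * a h)) +
      ∑ h, a h ^ 2 := by
    rw [← sum_add_distrib, mul_sum, ← sum_add_distrib]
    exact sum_congr rfl fun h _ => by ring
  rw [h1, sph_sum ha]
  constructor <;> intro h <;> linarith

theorem ex4 {D r : ℕ} {a γ : Fin D → ℤ} (ha : a ∈ sph D r) :
    ∑ h, (a h + 2 * γ h) ^ 2 = (r : ℤ) ↔ ∑ h, γ h ^ 2 + ∑ h, γ h * (1 * a h) = 0 := by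
  have h1 : ∑ h, (a h + 2 * γ h) ^ 2 = 4 * (∑ h, γ h ^ 2 + ∑ h, γ h * (1 * a h)) +
      ∑ h, a h ^ 2 := by
    rw [← sum_add_distrib, mul_sum, ← sum_add_distrib]
    exact sum_congr rfl fun h _ => by ring
  rw [h1, sph_sum ha]
  constructor <;> intro h <;> linarith

/-- choice of vectors on a finset -/
theorem pick {P X : Type} [Inhabited X] (A : Finset P) (φ : P → X → Prop)
    (h : ∀ p ∈ A, ∃ x, φ p x) : ∃ f : P → X, ∀ p ∈ A, φ p (f p) := by
  have h' : ∀ p, ∃ x, p ∈ A → φ p x := by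
    intro p
    by_cases hp : p ∈ A
    · obtain ⟨x, hx⟩ := h p hp
      exact ⟨x, fun _ => hx⟩
    · exact ⟨default, fun h => absurd h hp⟩
  choose f hf using h'
  exact ⟨f, hf⟩

theorem t_VC12 : S_VC12 := by
  intro hV D N r R _ hD hr hR S₁ S₂ h1 h2 hsh
  refine core2 hV hD S₁ S₂ h1 h2 (fun u y => UY r u y) (fun w y => WY r w y) hsh ?_
  intro y₀ hu hw
  obtain ⟨a, ha⟩ := pick S₁ (fun u (a : Fin D → ℤ) => a ∈ sph D r ∧
    y₀ = fun i => dbl (u i) + (a i : ZMod (2 * N))) hu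
  obtain ⟨a', ha'⟩ := pick S₂ (fun w (a : Fin D → ℤ) => a ∈ sph D r ∧
    y₀ = fun i => dbl (w i) - (a i : ZMod (2 * N))) hw
  refine ⟨fun u h => 2 * a u h, fun w h => -2 * a' w h, fun y hy => ?_⟩
  obtain ⟨k, hk, b, hb, hyb⟩ := hy
  refine ⟨fun h => b h - a k h, fun u hu' => ?_, fun w hw' => ?_⟩
  all_goals
    have hγ : ∀ h, |b h - a k h| ≤ 2 * (R : ℤ) := by
      intro h
      have e1 := abs_le.1 (sph_le hr hb h)
      have e2 := abs_le.1 (sph_le hr (ha k hk).1 h)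
      rw [abs_le]
      constructor <;> linarith
    have hyy : ∀ h, y h = y₀ h + ((b h - a k h : ℤ) : ZMod (2 * N)) := by
      intro h
      rw [congrFun hyb h, congrFun (ha k hk).2 h]
      push_cast
      ring
  · rw [← ex1 (ha u hu').1]
    refine plus hr y (fun i => dbl (u i)) (fun h => a u h + (b h - a k h)) (3 * R) ?_ ?_ ?_
    · intro h
      have e1 := abs_le.1 (sph_le hr (ha u hu').1 h)
      have e2 := abs_le.1 (hγ h)
      rw [abs_le]
      constructor <;> linarith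
    · push_cast
      have : (4 * R : ℤ) < N := by exact_mod_cast hR
      linarith
    · intro h
      rw [hyy h, congrFun (ha u hu').2 h]
      push_cast
      ring
  · rw [← ex2 (ha' w hw').1]
    refine minus hr y (fun i => dbl (w i)) (fun h => a' w h - (b h - a k h)) (3 * R) ?_ ?_ ?_
    · intro h
      have e1 := abs_le.1 (sph_le hr (ha' w hw').1 h)
      have e2 := abs_le.1 (hγ h)
      rw [abs_le]
      constructor <;> linarith
    · push_cast
      have : (4 * R : ℤ) < N := by exact_mod_cast hR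
      linarith
    · intro h
      rw [hyy h, congrFun (ha' w hw').2 h]
      push_cast
      ring

theorem t_VC13 : S_VC13 := by
  intro hdbl hV D N r R _ hD hr hR S₁ S₃ h1 h3 hsh
  refine core2 hV hD S₁ S₃ h1 h3 (fun u w => UW r u w) (fun y w => WY r w y) hsh ?_
  intro w₀ hu hy
  obtain ⟨a, ha⟩ := pick S₁ (fun u (a : Fin D → ℤ) => a ∈ sph D r ∧
    w₀ = fun i => u i + (a i : ZMod N)) hu
  obtain ⟨a', ha'⟩ := pick S₃ (fun y (a : Fin D → ℤ) => a ∈ sph D r ∧
    y = fun i => dbl (w₀ i) - (a i : ZMod (2 * N))) hy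
  refine ⟨fun u h => 2 * a u h, fun y h => 1 * a' y h, fun w hw => ?_⟩
  obtain ⟨k, hk, b, hb, hwb⟩ := hw
  refine ⟨fun h => b h - a k h, fun u hu' => ?_, fun y hy' => ?_⟩
  all_goals
    have hγ : ∀ h, |b h - a k h| ≤ 2 * (R : ℤ) := by
      intro h
      have e1 := abs_le.1 (sph_le hr hb h)
      have e2 := abs_le.1 (sph_le hr (ha k hk).1 h)
      rw [abs_le]
      constructor <;> linarith
    have hww : ∀ h, w h = w₀ h + ((b h - a k h : ℤ) : ZMod N) := by
      intro h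
      rw [congrFun hwb h, congrFun (ha k hk).2 h]
      push_cast
      ring
  · rw [← ex1 (ha u hu').1]
    refine plus hr w u (fun h => a u h + (b h - a k h)) (3 * R) ?_ ?_ ?_
    · intro h
      have e1 := abs_le.1 (sph_le hr (ha u hu').1 h)
      have e2 := abs_le.1 (hγ h)
      rw [abs_le]
      constructor <;> linarith
    · have : (4 * R : ℤ) < N := by exact_mod_cast hR
      linarith
    · intro h
      rw [hww h, congrFun (ha u hu').2 h]
      push_cast
      ring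
  · rw [← ex4 (ha' y hy').1]
    refine minus hr y (fun i => dbl (w i)) (fun h => a' y h + 2 * (b h - a k h)) (5 * R) ?_ ?_ ?_
    · intro h
      have e1 := abs_le.1 (sph_le hr (ha' y hy').1 h)
      have e2 := abs_le.1 (hγ h)
      rw [abs_le]
      constructor <;> linarith
    · push_cast
      have : (4 * R : ℤ) < N := by exact_mod_cast hR
      linarith
    · intro h
      rw [hww h, hdbl.1 N (w₀ h) (b h - a k h)]
      conv_lhs => rw [(ha' y hy').2]
      push_cast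
      ring

theorem t_VC23 : S_VC23 := by
  intro hdbl hV D N r R _ hD hr hR S₂ S₃ h2 h3 hsh
  refine core2 hV hD S₂ S₃ h2 h3 (fun w u => UW r u w) (fun y u => UY r u y) hsh ?_
  intro u₀ hw hy
  obtain ⟨a, ha⟩ := pick S₂ (fun w (a : Fin D → ℤ) => a ∈ sph D r ∧
    w = fun i => u₀ i + (a i : ZMod N)) hw
  obtain ⟨a', ha'⟩ := pick S₃ (fun y (a : Fin D → ℤ) => a ∈ sph D r ∧
    y = fun i => dbl (u₀ i) + (a i : ZMod (2 * N))) hy
  refine ⟨fun w h => -2 * a w h, fun y h => -1 * a' y h, fun u hu => ?_⟩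
  obtain ⟨k, hk, b, hb, hkb⟩ := hu
  refine ⟨fun h => a k h - b h, fun w hw' => ?_, fun y hy' => ?_⟩
  all_goals
    have hγ : ∀ h, |a k h - b h| ≤ 2 * (R : ℤ) := by
      intro h
      have e1 := abs_le.1 (sph_le hr hb h)
      have e2 := abs_le.1 (sph_le hr (ha k hk).1 h)
      rw [abs_le]
      constructor <;> linarith
    have huu : ∀ h, u h = u₀ h + ((a k h - b h : ℤ) : ZMod N) := by
      intro h
      have e1 := congrFun hkb h
      have e2 := congrFun (ha k hk).2 h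
      have e3 : u h = k h - (b h : ZMod N) := by
        rw [e1]
        ring
      rw [e3, e2]
      push_cast
      ring
  · rw [← ex2 (ha w hw').1]
    refine plus hr w u (fun h => a w h - (a k h - b h)) (3 * R) ?_ ?_ ?_
    · intro h
      have e1 := abs_le.1 (sph_le hr (ha w hw').1 h)
      have e2 := abs_le.1 (hγ h)
      rw [abs_le]
      constructor <;> linarith
    · have : (4 * R : ℤ) < N := by exact_mod_cast hR
      linarith
    · intro h
      rw [huu h]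
      conv_lhs => rw [(ha w hw').2]
      push_cast
      ring
  · rw [← ex3 (ha' y hy').1]
    refine plus hr y (fun i => dbl (u i)) (fun h => a' y h - 2 * (a k h - b h)) (5 * R) ?_ ?_ ?_
    · intro h
      have e1 := abs_le.1 (sph_le hr (ha' y hy').1 h)
      have e2 := abs_le.1 (hγ h)
      rw [abs_le]
      constructor <;> linarith
    · push_cast
      have : (4 * R : ℤ) < N := by exact_mod_cast hR
      linarith
    · intro h
      rw [huu h, hdbl.1 N (u₀ h) (a k h - b h)]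
      conv_lhs => rw [(ha' y hy').2]
      push_cast
      ring

end Pool.Agent.W240.BV
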