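import Pool.Agent.W722.Cq.Stm

set_option autoImplicit false

open Metric Set Filter Topology Asymptotics

namespace Pool.Agent.W240.CQ

open Pool.Agent.W722.Cq

theorem Hm_bound (d : ℕ) (c : ℕ → ℂ) (x : ℂ) :
    |Hm d c x| ≤ (∑ a ∈ Finset.Ioo 0 d, ‖c a‖) * ‖x‖ ^ d := by
  unfold Hm
  refine (Complex.abs_re_le_norm _).trans ?_
  refine (norm_sum_le _ _).trans ?_
  rw [Finset.sum_mul]
  refine Finset.sum_le_sum fun a ha => ?_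
  have ha' := (Finset.mem_Ioo.1 ha).2
  rw [norm_mul, norm_mul, norm_pow, norm_pow, RCLike.norm_conj, mul_assoc, ← pow_add]
  rw [Nat.add_sub_cancel' ha'.le]

theorem seq : S_SEQ := by
  intro n k m D r p Φ Ψ P C c K hr hNF hSit hK
  obtain ⟨cc, hP⟩ := hNF.pol.form
  set M : ℝ := ∑ a ∈ Finset.Ioo 0 (2 * m), ‖cc a‖ with hM
  have hM0 : 0 ≤ M := Finset.sum_nonneg fun _ _ => norm_nonneg _
  have hm2 := hNF.two
  have hPb : ∀ x : ℂ, ‖x‖ ≤ 1 → |P x| ≤ M * ‖x‖ ^ 2 := by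
    intro x hx
    rw [hP]
    refine (Hm_bound _ _ _).trans ?_
    refine mul_le_mul_of_nonneg_left ?_ hM0
    exact pow_le_pow_of_le_one (norm_nonneg _) hx (by omega)
  obtain ⟨C', c', hC'0, hc'0, hest⟩ := hNF.est
  have hinv := hSit.inv1 0 (by simpa using hSit.c0)
  rw [hNF.zero] at hinv
  obtain ⟨hΨp, -, hΨd⟩ := hinv
  obtain ⟨L, hL0, hL⟩ := hΨd.isBigO_sub.exists_pos
  rw [IsBigOWith] at hL
  obtain ⟨b1, hb1, hL⟩ := Metric.eventually_nhds_iff.1 hL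
  set C3 : ℝ := 4 + M with hC3
  set K' : ℝ := L ^ 2 * K with hK'
  have hK'0 : 0 < K' := by positivity
  have hC30 : 0 < C3 := by positivity
  refine ⟨2 * K' + 4 * (1 + C3 * K'), by positivity, fun τ hτ => ?_⟩
  set a : ℝ := min (min 1 c') (min (min τ (τ / (3 + M))) (1 / (4 * C' * (1 + C3 * K')))) with ha
  have ha0 : 0 < a := by
    refine lt_min (lt_min one_pos hc'0) (lt_min (lt_min hτ (by positivity)) (by positivity))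
  have ha1 : a ≤ 1 := (min_le_left _ _).trans (min_le_left _ _)
  have ha2 : a ≤ c' := (min_le_left _ _).trans (min_le_right _ _)
  have ha3 : a ≤ τ := (min_le_right _ _).trans ((min_le_left _ _).trans (min_le_left _ _))
  have ha4 : a ≤ τ / (3 + M) :=
    (min_le_right _ _).trans ((min_le_left _ _).trans (min_le_right _ _))
  have ha5 : a ≤ 1 / (4 * C' * (1 + C3 * K')) := (min_le_right _ _).trans (min_le_right _ _)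
  obtain ⟨b, hb0, hb⟩ := hSit.inv2 a ha0
  refine ⟨min b b1, lt_min hb0 hb1, fun x hx hrx hxK => ?_⟩
  obtain ⟨hξa, hΦ⟩ := hb x (hx.trans_le (min_le_left _ _))
  have hξL : ‖Ψ x‖ ≤ L * ‖x - p‖ := by
    have := hL (y := x) (by rw [dist_eq_norm]; exact hx.trans_le (min_le_right _ _))
    rwa [hΨp, sub_zero] at this
  set ξ := Ψ x with hξ
  set T : ℝ := -(r x) with hT
  have hT0 : 0 < T := by linarith
  have hest' := hest ξ (hξa.trans_le ha2)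
  rw [hΦ] at hest'
  have hξ0 : 0 ≤ ‖ξ‖ := norm_nonneg _
  have hξ1 : ‖ξ‖ ≤ 1 := (hξa.trans_le ha1).le
  have hξT : ‖ξ‖ ^ 2 ≤ K' * T := by
    calc ‖ξ‖ ^ 2 ≤ (L * ‖x - p‖) ^ 2 := pow_le_pow_left₀ hξ0 hξL 2
      _ = L ^ 2 * ‖x - p‖ ^ 2 := by ring
      _ ≤ L ^ 2 * (K * T) := mul_le_mul_of_nonneg_left hxK (by positivity)
      _ = K' * T := by rw [hK']; ring
  -- components
  have hx1 : ‖ξ.1‖ ≤ ‖ξ‖ := norm_fst_le ξ
  have hx2 : ‖ξ.2‖ ≤ ‖ξ‖ := norm_snd_le ξ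
  have hy : ‖ξ.2.1‖ ≤ ‖ξ‖ := (norm_fst_le ξ.2).trans hx2
  have hw : ‖ξ.2.2‖ ≤ ‖ξ‖ := (norm_snd_le ξ.2).trans hx2
  have hre : |ξ.2.2.re| ≤ ‖ξ‖ := (Complex.abs_re_le_norm _).trans hw
  have him : ξ.2.2.im ^ 2 ≤ ‖ξ‖ ^ 2 := by
    rw [← sq_abs]
    exact pow_le_pow_left₀ (abs_nonneg _) ((Complex.abs_im_le_norm _).trans hw) 2
  have hy2 : ‖ξ.2.1‖ ^ 2 ≤ ‖ξ‖ ^ 2 := pow_le_pow_left₀ (norm_nonneg _) hy 2
  have hx2' : ‖ξ.1‖ ^ (2 * m) ≤ ‖ξ‖ ^ 2 := by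
    calc ‖ξ.1‖ ^ (2 * m) ≤ ‖ξ.1‖ ^ 2 :=
          pow_le_pow_of_le_one (norm_nonneg _) (hx1.trans hξ1) (by omega)
      _ ≤ ‖ξ‖ ^ 2 := pow_le_pow_left₀ (norm_nonneg _) hx1 2
  have hPx : |P ξ.1| ≤ M * ‖ξ‖ ^ 2 :=
    (hPb ξ.1 (hx1.trans hξ1)).trans
      (mul_le_mul_of_nonneg_left (pow_le_pow_left₀ (norm_nonneg _) hx1 2) hM0)
  have hWt0 : 0 ≤ Wt m ξ := by unfold Wt; positivity
  have hu : |ξ.2.2.re| ≤ |rho0 P ξ| + ‖ξ‖ ^ 2 + M * ‖ξ‖ ^ 2 := by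
    have e : ξ.2.2.re = rho0 P ξ - ‖ξ.2.1‖ ^ 2 - P ξ.1 := by unfold rho0; ring
    have h1 : |ξ.2.2.re| ≤ |rho0 P ξ| + ‖ξ.2.1‖ ^ 2 + |P ξ.1| := by
      rw [e]
      calc |rho0 P ξ - ‖ξ.2.1‖ ^ 2 - P ξ.1| ≤ |rho0 P ξ - ‖ξ.2.1‖ ^ 2| + |P ξ.1| := abs_sub _ _
        _ ≤ |rho0 P ξ| + |‖ξ.2.1‖ ^ 2| + |P ξ.1| := by
          have := abs_sub (rho0 P ξ) (‖ξ.2.1‖ ^ 2)
          linarith
        _ = _ := by rw [abs_of_nonneg (sq_nonneg ‖ξ.2.1‖)]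
    linarith
  have hWt : Wt m ξ ≤ |rho0 P ξ| + C3 * ‖ξ‖ ^ 2 := by
    unfold Wt
    rw [hC3]
    linarith
  have hrho : |rho0 P ξ| ≤ T + C' * ‖ξ‖ * Wt m ξ := by
    have h1 : |rho0 P ξ| ≤ |r x| + |r x - rho0 P ξ| := by
      have := abs_sub_abs_le_abs_sub (rho0 P ξ) (r x)
      rw [abs_sub_comm (rho0 P ξ) (r x)] at this
      linarith
    have h2 : |r x| = T := by rw [hT, abs_of_neg hrx]
    linarith
  have hsmall : C' * ‖ξ‖ * (4 * (1 + C3 * K')) ≤ 1 := by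
    have h1 : ‖ξ‖ ≤ 1 / (4 * C' * (1 + C3 * K')) := (hξa.trans_le ha5).le
    rw [le_div_iff₀ (by positivity)] at h1
    linarith
  have hK3 : 0 ≤ C3 * K' := by positivity
  have hCξ : 0 ≤ C' * ‖ξ‖ := by positivity
  have hhalf : C' * ‖ξ‖ ≤ 1 / 4 := by nlinarith
  have hWT : Wt m ξ ≤ 2 * (1 + C3 * K') * T := by
    have h1 : C3 * ‖ξ‖ ^ 2 ≤ C3 * (K' * T) := mul_le_mul_of_nonneg_left hξT hC30.le
    have h2 : C' * ‖ξ‖ * Wt m ξ ≤ 1 / 4 * Wt m ξ := mul_le_mul_of_nonneg_right hhalf hWt0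
    nlinarith
  have hdiff : |r x - rho0 P ξ| ≤ T / 2 := by
    refine hest'.trans ?_
    calc C' * ‖ξ‖ * Wt m ξ ≤ C' * ‖ξ‖ * (2 * (1 + C3 * K') * T) :=
          mul_le_mul_of_nonneg_left hWT hCξ
      _ = (C' * ‖ξ‖ * (4 * (1 + C3 * K'))) * (T / 2) := by ring
      _ ≤ 1 * (T / 2) := mul_le_mul_of_nonneg_right hsmall (by linarith)
      _ = T / 2 := one_mul _
  have hδ := abs_le.1 hdiff
  have hδ1 : T / 2 ≤ -(rho0 P ξ) := by linarith [hδ.1, hδ.2]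
  refine ⟨hΦ, hξa.trans_le ha3, by linarith, ?_, ?_, ?_⟩
  · -- size of rho0
    have h1 : |rho0 P ξ| ≤ (2 + M) * ‖ξ‖ := by
      have e : rho0 P ξ = ξ.2.2.re + ‖ξ.2.1‖ ^ 2 + P ξ.1 := rfl
      have h2 : |rho0 P ξ| ≤ |ξ.2.2.re| + ‖ξ.2.1‖ ^ 2 + |P ξ.1| := by
        rw [e]
        calc |ξ.2.2.re + ‖ξ.2.1‖ ^ 2 + P ξ.1| ≤ |ξ.2.2.re + ‖ξ.2.1‖ ^ 2| + |P ξ.1| :=
              abs_add_le _ _
          _ ≤ |ξ.2.2.re| + |‖ξ.2.1‖ ^ 2| + |P ξ.1| := by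
            have := abs_add_le (ξ.2.2.re) (‖ξ.2.1‖ ^ 2)
            linarith
          _ = _ := by rw [abs_of_nonneg (sq_nonneg ‖ξ.2.1‖)]
      have h3 : ‖ξ‖ ^ 2 ≤ ‖ξ‖ := by nlinarith
      nlinarith
    have h2 : ‖ξ‖ < τ / (3 + M) := hξa.trans_le ha4
    rw [lt_div_iff₀ (by positivity)] at h2
    have h3 := neg_abs_le (rho0 P ξ)
    nlinarith
  · have : K' * T ≤ K' * (2 * -(rho0 P ξ)) := mul_le_mul_of_nonneg_left (by linarith) hK'0.le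
    nlinarith
  · have : 2 * (1 + C3 * K') * T ≤ 2 * (1 + C3 * K') * (2 * -(rho0 P ξ)) :=
      mul_le_mul_of_nonneg_left (by linarith) (by positivity)
    nlinarith

end Pool.Agent.W240.CQ
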