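import Pool.Agent.W192.PP.Defs

open Complex Filter Topology Set MeasureTheory

namespace Pool.Agent.W240.PPDiv

open Pool.Agent.W192.PP

theorem div_aux (J : ℕ) (F : (Fin J → ℂ) → ℂ → ℂ)
    (hF : ∀ v, Differentiable ℂ (F v))
    (hlin : ∀ (a : ℂ) (v w : Fin J → ℂ) (s : ℂ), F (a • v + w) s = a * F v s + F w s)
    (S : Multiset ℂ) : ∀ k : ℕ, k = Multiset.card S →
    ∃ (Φ : (Fin J → ℂ) →ₗ[ℂ] (Fin k → ℂ)) (G : (Fin J → ℂ) → ℂ → ℂ),
      (∀ v, Differentiable ℂ (G v)) ∧
      (∀ (a : ℂ) (v w : Fin J → ℂ) (s : ℂ), G (a • v + w) s = a * G v s + G w s) ∧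
      ∀ v, Φ v = 0 → ∀ s, F v s = Pm S s * G v s := by
  induction S using Multiset.induction_on with
  | empty =>
    intro k hk
    exact ⟨0, F, hF, hlin, fun v _ s => by simp [Pm]⟩
  | cons ρ S ih =>
    intro k hk
    rw [Multiset.card_cons] at hk
    subst hk
    obtain ⟨Φ, G, hG, hGlin, hΦ⟩ := ih _ rfl
    have h0 : ∀ s, G 0 s = 0 := by
      intro s
      have h1 := hGlin 0 0 0 s
      simp only [smul_zero, add_zero, zero_mul, zero_add] at h1
      have h2 := hGlin 1 0 0 s
      simp only [smul_zero, add_zero, one_mul] at h2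
      linear_combination (-1 : ℂ) * h2
    have hadd : ∀ v w s, G (v + w) s = G v s + G w s := by
      intro v w s
      have := hGlin 1 v w s
      rwa [one_smul, one_mul] at this
    have hsmul : ∀ (a : ℂ) v s, G (a • v) s = a * G v s := by
      intro a v s
      have := hGlin a v 0 s
      rwa [add_zero, h0, add_zero] at this
    let ℓ : (Fin J → ℂ) →ₗ[ℂ] ℂ :=
      { toFun := fun v => G v ρ
        map_add' := fun v w => hadd v w ρ
        map_smul' := fun a v => hsmul a v ρ }
    let Ψ : Fin (Multiset.card S + 1) → ((Fin J → ℂ) →ₗ[ℂ] ℂ) :=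
      Fin.cons ℓ (fun i => (LinearMap.proj i).comp Φ)
    refine ⟨LinearMap.pi Ψ, fun v => dslope (G v) ρ, ?_, ?_, ?_⟩
    · intro v
      rw [← differentiableOn_univ, Complex.differentiableOn_dslope univ_mem,
        differentiableOn_univ]
      exact hG v
    · intro a v w s
      show dslope (G (a • v + w)) ρ s = a * dslope (G v) ρ s + dslope (G w) ρ s
      have hfun : G (a • v + w) = fun z => a * G v z + G w z := funext fun z => hGlin a v w z
      by_cases hs : s = ρ
      · subst hs
        simp only [dslope_same]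
        rw [hfun, deriv_fun_add ((hG v).differentiableAt.const_mul a) (hG w).differentiableAt,
          deriv_const_mul _ (hG v).differentiableAt]
      · rw [dslope_of_ne _ hs, dslope_of_ne _ hs, dslope_of_ne _ hs, slope_def_field,
          slope_def_field, slope_def_field, hGlin, hGlin]
        have : s - ρ ≠ 0 := sub_ne_zero.2 hs
        field_simp
        ring
    · intro v hv s
      have hv0 : ℓ v = 0 := by
        have := congrFun hv 0
        simpa [Ψ] using this
      have hv1 : Φ v = 0 := by
        funext i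
        have := congrFun hv i.succ
        simpa [Ψ] using this
      rw [hΦ v hv1 s]
      have h1 : (s - ρ) • dslope (G v) ρ s = G v s - G v ρ := sub_smul_dslope (G v) ρ s
      have h2 : G v ρ = 0 := hv0
      rw [h2, sub_zero, smul_eq_mul] at h1
      have h3 : Pm (ρ ::ₘ S) s = (s - ρ) * Pm S s := by simp [Pm]
      rw [h3, ← h1]
      ring

theorem t_div : S_div := by
  intro J F hF hlin S
  obtain ⟨Φ, G, hG, -, hΦ⟩ := div_aux J F hF hlin S _ rfl
  exact ⟨Φ, fun v hv => ⟨G v, hG v, hΦ v hv⟩⟩

end Pool.Agent.W240.PPDiv
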