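import Pool.Agent.W192.PP.Defs

open Complex Filter Topology Set MeasureTheory

namespace Pool.Agent.W240.PPLa

open Pool.Agent.W192.PP

noncomputable section

/-- the trigonometric sum -/
def gg (J : ℕ) (H : ℝ) (v : Fin J → ℂ) (t : ℝ) : ℂ :=
  ∑ j : Fin J, v j * cexp (-(I * ((2 * Real.pi * j / H * t : ℝ) : ℂ)))

theorem gg_cont (J : ℕ) (H : ℝ) (v : Fin J → ℂ) : Continuous (gg J H v) := by
  unfold gg
  fun_prop

theorem period (H A : ℝ) (hH : 0 < H) (j l : ℕ) :
    ∫ t in A..(A + H), cexp (-(I * ((2 * Real.pi * j / H * t : ℝ) : ℂ))) *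
      (starRingEnd ℂ) (cexp (-(I * ((2 * Real.pi * l / H * t : ℝ) : ℂ)))) =
      if j = l then (H : ℂ) else 0 := by
  have hHc : (H : ℂ) ≠ 0 := by exact_mod_cast hH.ne'
  have h1 : ∀ t : ℝ, cexp (-(I * ((2 * Real.pi * j / H * t : ℝ) : ℂ))) *
      (starRingEnd ℂ) (cexp (-(I * ((2 * Real.pi * l / H * t : ℝ) : ℂ)))) =
      cexp ((((l : ℤ) - (j : ℤ) : ℤ) : ℂ) * (2 * Real.pi * I) / H * t) := by
    intro t
    rw [← Complex.exp_conj, ← Complex.exp_add]
    congr 1
    simp only [map_neg, map_mul, conj_I, conj_ofReal]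
    push_cast
    ring
  simp only [h1]
  by_cases hjl : j = l
  · subst hjl
    simp
  · rw [if_neg hjl]
    have hz : (((l : ℤ) - (j : ℤ) : ℤ) : ℂ) ≠ 0 := by
      have : ((l : ℤ) - (j : ℤ)) ≠ 0 := by omega
      exact_mod_cast this
    have hc : (((l : ℤ) - (j : ℤ) : ℤ) : ℂ) * (2 * Real.pi * I) / H ≠ 0 := by
      refine div_ne_zero (mul_ne_zero hz ?_) hHc
      exact Complex.two_pi_I_ne_zero
    rw [integral_exp_mul_complex hc]
    have h2 : (((l : ℤ) - (j : ℤ) : ℤ) : ℂ) * (2 * Real.pi * I) / H * ((A + H : ℝ) : ℂ) =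
        (((l : ℤ) - (j : ℤ) : ℤ) : ℂ) * (2 * Real.pi * I) / H * (A : ℂ) +
        (((l : ℤ) - (j : ℤ) : ℤ) : ℂ) * (2 * Real.pi * I) := by
      push_cast
      field_simp
    rw [h2, Complex.exp_add, Complex.exp_int_mul_two_pi_mul_I, mul_one, sub_self, zero_div]

theorem parseval (J : ℕ) (H A : ℝ) (hH : 0 < H) (v : Fin J → ℂ) :
    ∫ t in A..(A + H), ‖gg J H v t‖ ^ 2 = H * ∑ j, ‖v j‖ ^ 2 := by
  have key : ((∫ t in A..(A + H), ‖gg J H v t‖ ^ 2 : ℝ) : ℂ) =
      ((H * ∑ j, ‖v j‖ ^ 2 : ℝ) : ℂ) := by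
    rw [← intervalIntegral.integral_ofReal]
    have h1 : ∀ t : ℝ, ((‖gg J H v t‖ ^ 2 : ℝ) : ℂ) = ∑ j : Fin J, ∑ l : Fin J,
        (v j * (starRingEnd ℂ) (v l)) * (cexp (-(I * ((2 * Real.pi * j / H * t : ℝ) : ℂ))) *
          (starRingEnd ℂ) (cexp (-(I * ((2 * Real.pi * l / H * t : ℝ) : ℂ))))) := by
      intro t
      push_cast
      rw [← Complex.mul_conj', gg, map_sum, Finset.sum_mul_sum]
      refine Finset.sum_congr rfl fun j _ => Finset.sum_congr rfl fun l _ => ?_
      rw [map_mul]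
      push_cast
      ring
    simp only [h1]
    rw [intervalIntegral.integral_finset_sum]
    · have h2 : ∀ j : Fin J, ∫ t in A..(A + H), ∑ l : Fin J,
          (v j * (starRingEnd ℂ) (v l)) * (cexp (-(I * ((2 * Real.pi * j / H * t : ℝ) : ℂ))) *
          (starRingEnd ℂ) (cexp (-(I * ((2 * Real.pi * l / H * t : ℝ) : ℂ))))) =
          (H : ℂ) * (‖v j‖ : ℂ) ^ 2 := by
        intro j
        rw [intervalIntegral.integral_finset_sum]
        · simp only [intervalIntegral.integral_const_mul, period H A hH]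
          rw [Finset.sum_eq_single j]
          · rw [if_pos rfl, Complex.mul_conj']
            ring
          · intro l _ hl
            rw [if_neg, mul_zero]
            intro h
            exact hl (Fin.ext h.symm)
          · intro h
            exact absurd (Finset.mem_univ _) h
        · intro l _
          apply Continuous.intervalIntegrable
          fun_prop
      simp only [h2]
      rw [← Finset.mul_sum]
      push_cast
      rfl
    · intro j _
      apply Continuous.intervalIntegrable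
      fun_prop
  exact_mod_cast key

/-- Cauchy-Schwarz -/
theorem cs (A B : ℝ) (hAB : A ≤ B) (f k : ℝ → ℝ) (hf : ContinuousOn f (Icc A B))
    (hk : ContinuousOn k (Icc A B)) :
    ∫ t in A..B, f t * k t ≤ √(∫ t in A..B, f t ^ 2) * √(∫ t in A..B, k t ^ 2) := by
  have i1 : IntervalIntegrable (fun t => f t ^ 2) volume A B :=
    ContinuousOn.intervalIntegrable_of_Icc hAB (hf.pow 2)
  have i2 : IntervalIntegrable (fun t => k t ^ 2) volume A B :=
    ContinuousOn.intervalIntegrable_of_Icc hAB (hk.pow 2)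
  have i3 : IntervalIntegrable (fun t => f t * k t) volume A B :=
    ContinuousOn.intervalIntegrable_of_Icc hAB (hf.mul hk)
  have h : ∀ x : ℝ, 0 ≤ (∫ t in A..B, k t ^ 2) * (x * x) + (-2 * ∫ t in A..B, f t * k t) * x +
      ∫ t in A..B, f t ^ 2 := by
    intro x
    have h1 : 0 ≤ ∫ t in A..B, (f t - x * k t) ^ 2 :=
      intervalIntegral.integral_nonneg hAB fun t _ => sq_nonneg _
    have h2 : ∫ t in A..B, (f t - x * k t) ^ 2 =
        ∫ t in A..B, ((x * x) * k t ^ 2 + (-2 * x) * (f t * k t) + f t ^ 2) := by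
      congr 1
      funext t
      ring
    rw [h2, intervalIntegral.integral_add ((i2.const_mul _).add (i3.const_mul _)) i1,
      intervalIntegral.integral_add (i2.const_mul _) (i3.const_mul _),
      intervalIntegral.integral_const_mul, intervalIntegral.integral_const_mul] at h1
    linarith
  have hd := discrim_le_zero h
  unfold discrim at hd
  have h3 : (∫ t in A..B, f t * k t) ^ 2 ≤ (∫ t in A..B, f t ^ 2) * (∫ t in A..B, k t ^ 2) := by
    nlinarith
  have h4 : 0 ≤ ∫ t in A..B, f t ^ 2 :=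
    intervalIntegral.integral_nonneg hAB fun t _ => sq_nonneg _
  rw [← Real.sqrt_mul h4]
  exact Real.le_sqrt_of_sq_le h3

/-- the exponential vector -/
def ev (J : ℕ) (H : ℝ) (t : ℝ) : EuclideanSpace ℂ (Fin J) :=
  WithLp.toLp 2 (fun j : Fin J => (starRingEnd ℂ) (cexp (-(I * ((2 * Real.pi * j / H * t : ℝ) : ℂ)))))

theorem norm_inner_ev (J : ℕ) (H : ℝ) (t : ℝ) (v : EuclideanSpace ℂ (Fin J)) :
    ‖inner ℂ v (ev J H t)‖ = ‖gg J H v t‖ := by
  rw [norm_inner_symm]
  congr 1
  rw [PiLp.inner_apply]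
  unfold gg ev
  refine Finset.sum_congr rfl fun j _ => ?_
  rw [RCLike.inner_apply]
  simp

theorem norm_ev (J : ℕ) (H : ℝ) (t : ℝ) : ‖ev J H t‖ ^ 2 = J := by
  rw [EuclideanSpace.norm_sq_eq]
  have : ∀ j : Fin J, ‖(ev J H t) j‖ ^ 2 = 1 := by
    intro j
    show ‖(starRingEnd ℂ) (cexp (-(I * ((2 * Real.pi * j / H * t : ℝ) : ℂ))))‖ ^ 2 = 1
    rw [RCLike.norm_conj, Complex.norm_exp]
    simp
  simp only [this]
  simp

theorem t_la : S_la := by
  intro J K H A B β Φ f hH hAB hBH hf hβ hyp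
  let E := EuclideanSpace ℂ (Fin J)
  let L : E →ₗ[ℂ] (Fin K → ℂ) := Φ.comp (WithLp.linearEquiv 2 ℂ (Fin J → ℂ)).toLinearMap
  let W : Submodule ℂ E := LinearMap.ker L
  have hE : Module.finrank ℂ E = J := finrank_euclideanSpace_fin
  have hdim1 : Module.finrank ℂ W + Module.finrank ℂ Wᗮ = J := by
    rw [W.finrank_add_finrank_orthogonal, hE]
  have hdim2 : Module.finrank ℂ Wᗮ ≤ K := by
    have h1 := LinearMap.finrank_range_add_finrank_ker L
    have h2 : Module.finrank ℂ (LinearMap.range L) ≤ K := by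
      have := Submodule.finrank_le (LinearMap.range L)
      simpa using this
    rw [hE] at h1
    have h3 : Module.finrank ℂ W = Module.finrank ℂ (LinearMap.ker L) := rfl
    omega
  let b := stdOrthonormalBasis ℂ W
  let b' := stdOrthonormalBasis ℂ Wᗮ
  let m : ℝ → ℝ := fun t => ∑ i, ‖gg J H (b i : E) t‖ ^ 2
  let k : ℝ → ℝ := fun t => ∑ i, ‖gg J H (b' i : E) t‖ ^ 2
  have hmk : ∀ t, m t + k t = J := by
    intro t
    have h1 : m t = ‖W.orthogonalProjection (ev J H t)‖ ^ 2 := by
      rw [← b.sum_sq_norm_inner_right]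
      refine Finset.sum_congr rfl fun i _ => ?_
      rw [Submodule.inner_orthogonalProjection_eq_of_mem_left, norm_inner_ev]
    have h2 : k t = ‖Wᗮ.orthogonalProjection (ev J H t)‖ ^ 2 := by
      rw [← b'.sum_sq_norm_inner_right]
      refine Finset.sum_congr rfl fun i _ => ?_
      rw [Submodule.inner_orthogonalProjection_eq_of_mem_left, norm_inner_ev]
    rw [h1, h2, ← Submodule.norm_sq_eq_add_norm_sq_projection, norm_ev]
  have hk0 : ∀ t, 0 ≤ k t := fun t => Finset.sum_nonneg fun i _ => sq_nonneg _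
  have hm0 : ∀ t, 0 ≤ m t := fun t => Finset.sum_nonneg fun i _ => sq_nonneg _
  have hkc : Continuous k := by
    refine continuous_finset_sum _ fun i _ => ?_
    exact ((gg_cont J H _).norm).pow 2
  have hnorm : ∀ i, ∑ j, ‖(b i : E) j‖ ^ 2 = 1 := by
    intro i
    rw [← EuclideanSpace.norm_sq_eq]
    have : ‖(b i : E)‖ = 1 := b.norm_eq_one i
    rw [this, one_pow]
  have hnorm' : ∀ i, ∑ j, ‖(b' i : E) j‖ ^ 2 = 1 := by
    intro i
    rw [← EuclideanSpace.norm_sq_eq]
    have : ‖(b' i : E)‖ = 1 := b'.norm_eq_one i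
    rw [this, one_pow]
  -- the sum of the hypotheses
  have h1 : ∀ i, ∫ t in A..B, f t * ‖gg J H (b i : E) t‖ ^ 2 ≤ β := by
    intro i
    have h2 := hyp (b i : E).ofLp (by
      have : (b i : E) ∈ W := (b i).2
      exact LinearMap.mem_ker.1 this)
    refine h2.trans ?_
    have h3 : ∑ j : Fin J, ‖(b i : E).ofLp j‖ ^ 2 = 1 := hnorm i
    rw [h3, mul_one]
  have h2 : ∫ t in A..B, f t * m t ≤ J * β := by
    have e1 : ∫ t in A..B, f t * m t = ∑ i, ∫ t in A..B, f t * ‖gg J H (b i : E) t‖ ^ 2 := by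
      rw [← intervalIntegral.integral_finset_sum]
      · congr 1
        funext t
        rw [Finset.mul_sum]
      · intro i _
        exact ContinuousOn.intervalIntegrable_of_Icc hAB
          (hf.mul (((gg_cont J H _).norm).pow 2).continuousOn)
    rw [e1]
    calc ∑ i, ∫ t in A..B, f t * ‖gg J H (b i : E) t‖ ^ 2
        ≤ ∑ _i : Fin (Module.finrank ℂ W), β := Finset.sum_le_sum fun i _ => h1 i
      _ = (Module.finrank ℂ W : ℝ) * β := by simp
      _ ≤ J * β := by
        refine mul_le_mul_of_nonneg_right ?_ hβ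
        have : Module.finrank ℂ W ≤ J := by omega
        exact_mod_cast this
  have h3 : (J : ℝ) * ∫ t in A..B, f t = (∫ t in A..B, f t * m t) + ∫ t in A..B, f t * k t := by
    rw [← intervalIntegral.integral_add, ← intervalIntegral.integral_const_mul]
    · congr 1
      funext t
      rw [← mul_add, hmk, mul_comm]
    · exact ContinuousOn.intervalIntegrable_of_Icc hAB (hf.mul (by
        refine Continuous.continuousOn ?_
        refine continuous_finset_sum _ fun i _ => ?_
        exact ((gg_cont J H _).norm).pow 2))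
    · exact ContinuousOn.intervalIntegrable_of_Icc hAB (hf.mul hkc.continuousOn)
  have h4 : ∫ t in A..B, k t ≤ H * K := by
    have e1 : ∫ t in A..B, k t ≤ ∫ t in A..(A + H), k t := by
      have := intervalIntegral.integral_add_adjacent_intervals
        (hkc.intervalIntegrable A B) (hkc.intervalIntegrable B (A + H)) (μ := volume)
      have h0 : 0 ≤ ∫ t in B..(A + H), k t :=
        intervalIntegral.integral_nonneg hBH fun t _ => hk0 t
      linarith
    have e2 : ∫ t in A..(A + H), k t = ∑ i, ∫ t in A..(A + H), ‖gg J H (b' i : E) t‖ ^ 2 := by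
      rw [← intervalIntegral.integral_finset_sum]
      intro i _
      exact (((gg_cont J H _).norm).pow 2).intervalIntegrable _ _
    rw [e2] at e1
    refine e1.trans ?_
    have e3 : ∀ i, ∫ t in A..(A + H), ‖gg J H (b' i : E) t‖ ^ 2 = H := by
      intro i
      rw [parseval J H A hH]
      have h3 : ∑ j : Fin J, ‖(b' i : E).ofLp j‖ ^ 2 = 1 := hnorm' i
      rw [h3, mul_one]
    simp only [e3]
    rw [Finset.sum_const, Finset.card_univ, Fintype.card_fin, nsmul_eq_mul, mul_comm]
    refine mul_le_mul_of_nonneg_left ?_ hH.le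
    exact_mod_cast hdim2
  have h5 : ∫ t in A..B, k t ^ 2 ≤ J * H * K := by
    have e1 : ∫ t in A..B, k t ^ 2 ≤ ∫ t in A..B, J * k t := by
      refine intervalIntegral.integral_mono_on hAB ((hkc.pow 2).intervalIntegrable _ _)
        ((hkc.const_mul _).intervalIntegrable _ _) fun t _ => ?_
      have := hmk t
      have := hm0 t
      have := hk0 t
      nlinarith
    rw [intervalIntegral.integral_const_mul] at e1
    have : (J : ℝ) * (∫ t in A..B, k t) ≤ J * (H * K) :=
      mul_le_mul_of_nonneg_left h4 (Nat.cast_nonneg _)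
    linarith
  have h6 := cs A B hAB f k hf hkc.continuousOn
  have h7 : √(∫ t in A..B, k t ^ 2) ≤ √(J * H * K) := Real.sqrt_le_sqrt h5
  have h8 := mul_le_mul_of_nonneg_left h7 (Real.sqrt_nonneg (∫ t in A..B, f t ^ 2))
  rw [h3]
  linarith

end

end Pool.Agent.W240.PPLa
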