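import Pool.Agent.W217.BE.Stm

/-! Project BE (owner helper217), part CORE. -/

set_option autoImplicit false

namespace Pool.Agent.W240.BECORE

open Polynomial Pool.Agent.W217.BE

theorem dual {S κ : Type} [CommRing S] [Field κ] (χ : S →+* κ) (P : ℕ → Type)
    [∀ i, AddCommGroup (P i)] [∀ i, Module S (P i)] (d : ∀ i, P (i + 1) →ₗ[S] P i)
    {i n m : ℕ} (z : Fin n → P i) (w : Fin m → P i) (a : Fin n → P i →+ κ)
    (b : Fin m → P i →+ κ) (c₁ c₂ : κ) (h1 : c₁ ≠ 0) (h2 : c₂ ≠ 0)
    (hz : ∀ j, Cyc χ P d i (z j)) (hw : ∀ j, Cyc χ P d i (w j))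
    (ha : ∀ j, IsF χ (a j)) (hb : ∀ j, IsF χ (b j))
    (had : ∀ j x, a j (d i x) = 0) (hbd : ∀ j x, b j (d i x) = 0)
    (haz : ∀ j k, a j (z k) = if j = k then c₁ else 0)
    (hbz : ∀ j k, b j (z k) = 0)
    (hbw : ∀ j k, b j (w k) = if j = k then c₂ else 0) : Cert χ P d i (n + m) := by
  classical
  let b' : Fin m → P i →+ κ := fun j => (AddMonoidHom.mulLeft c₂⁻¹).comp (b j)
  let a' : Fin n → P i →+ κ := fun j => (AddMonoidHom.mulLeft c₁⁻¹).comp
    (a j - ∑ t, (AddMonoidHom.mulLeft (a j (w t))).comp (b' t))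
  have eb : ∀ j x, b' j x = c₂⁻¹ * b j x := fun j x => rfl
  have ea : ∀ j x, a' j x = c₁⁻¹ * (a j x - ∑ t, a j (w t) * (c₂⁻¹ * b t x)) := by
    intro j x
    show c₁⁻¹ * ((a j - ∑ t, (AddMonoidHom.mulLeft (a j (w t))).comp (b' t)) x) = _
    rw [AddMonoidHom.sub_apply, AddMonoidHom.finsetSum_apply]
    rfl
  let Z : Fin n ⊕ Fin m → P i := Sum.elim z w
  let Lf : Fin n ⊕ Fin m → P i →+ κ := Sum.elim a' b'
  have p1 : ∀ q, Cyc χ P d i (Z q) := by
    rintro (j | j)
    · exact hz j
    · exact hw j
  have p2 : ∀ q, IsF χ (Lf q) := by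
    rintro (j | j)
    · intro s x
      show a' j (s • x) = χ s * a' j x
      rw [ea, ea, ha j s x]
      have e : ∑ t, a j (w t) * (c₂⁻¹ * b t (s • x)) =
          χ s * ∑ t, a j (w t) * (c₂⁻¹ * b t x) := by
        rw [Finset.mul_sum]
        refine Finset.sum_congr rfl fun t _ => ?_
        rw [hb t s x]; ring
      rw [e]; ring
    · intro s x
      show b' j (s • x) = χ s * b' j x
      rw [eb, eb, hb j s x]; ring
  have p3 : ∀ q x, Lf q (d i x) = 0 := by
    rintro (j | j) x
    · show a' j (d i x) = 0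
      rw [ea, had]
      simp [hbd]
    · show b' j (d i x) = 0
      rw [eb, hbd, mul_zero]
  have p4 : ∀ q q', Lf q (Z q') = if q = q' then 1 else 0 := by
    rintro (j | j) (k | k)
    · show a' j (z k) = _
      rw [ea, haz]
      simp only [hbz, mul_zero, Finset.sum_const_zero, sub_zero, Sum.inl.injEq]
      split_ifs
      · exact inv_mul_cancel₀ h1
      · exact mul_zero _
    · show a' j (w k) = _
      rw [ea]
      simp only [hbw]
      have e : ∑ t, a j (w t) * (c₂⁻¹ * if t = k then c₂ else 0) = a j (w k) := by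
        rw [Finset.sum_eq_single k]
        · rw [if_pos rfl, inv_mul_cancel₀ h2, mul_one]
        · intro t _ ht
          rw [if_neg ht, mul_zero, mul_zero]
        · intro hk
          exact absurd (Finset.mem_univ k) hk
      rw [e, sub_self, mul_zero, if_neg (by simp)]
    · show b' j (z k) = _
      rw [eb, hbz, mul_zero, if_neg (by simp)]
    · show b' j (w k) = _
      rw [eb, hbw]
      simp only [Sum.inr.injEq]
      split_ifs
      · exact inv_mul_cancel₀ h2
      · exact mul_zero _
  refine ⟨fun j => Z (finSumFinEquiv.symm j), fun j => Lf (finSumFinEquiv.symm j),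
    fun j => p1 _, fun j => p2 _, fun j x => p3 _ x, fun j k => ?_⟩
  rw [p4]
  simp only [Equiv.apply_eq_iff_eq]

theorem main : CORE := by
  classical
  intro C κ _ _ χ P F G _ _ _ _ _ _ _ _ d dF dG f g p r h u v σ τ s₁ s₂ dd df dp pX dr h0 h1
    pf0 pf1 rg0 rg1 hστ σX τX hs1 hs2
  obtain ⟨χ0, hχ0⟩ : ∃ χ0, χ0 = χ.comp (Polynomial.evalRingHom (0 : C)) := ⟨_, rfl⟩
  rw [← hχ0]
  have chiX : χ0 (X : C[X]) = 0 := by rw [hχ0]; simp
  have chiC : ∀ c : C, χ0 (Polynomial.C c) = χ c := by intro c; rw [hχ0]; simp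
  have smulC : ∀ (i : ℕ) (c : C) (x : P i), (Polynomial.C c : C[X]) • x = c • x := by
    intro i c x
    rw [← Polynomial.algebraMap_eq, algebraMap_smul]
  have toC : ∀ (i : ℕ) (L : P i →+ κ), IsF χ0 L → ∀ (c : C) (x : P i), L (c • x) = χ c * L x := by
    intro i L hL c x
    rw [← smulC, hL, chiC]
  have mkF : ∀ (i : ℕ) (L : P i →+ κ), (∀ (c : C) (x : P i), L (c • x) = χ c * L x) →
      (∀ x : P i, L ((X : C[X]) • x) = 0) → IsF χ0 L := by
    intro i L hc hX s x
    have e : s = X * divX s + Polynomial.C (s.coeff 0) := by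
      rw [mul_comm]; exact (divX_mul_X_add s).symm
    have e2 : s • x = (X : C[X]) • (divX s • x) + (s.coeff 0) • x := by
      conv_lhs => rw [e]
      rw [add_smul, mul_smul, smulC]
    rw [e2, map_add, hX, zero_add, hc, hχ0]
    simp [coeff_zero_eq_eval_zero]
  have dC : ∀ (i : ℕ) (c : C) (x : P (i + 1)), d i (c • x) = c • d i x := by
    intro i c x
    rw [← smulC, map_smul, smulC]
  -- functionals on F
  have aF : ∀ (i : ℕ) (L : F i →+ κ), IsF χ L →
      IsF χ0 (L.comp (p i).toAddMonoidHom) := by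
    intro i L hL
    refine mkF i _ (fun c x => ?_) (fun x => ?_)
    · show L (p i (c • x)) = χ c * L (p i x)
      rw [map_smul, hL]
    · show L (p i ((X : C[X]) • x)) = 0
      rw [pX, map_zero]
  have ad : ∀ (i : ℕ) (L : F i →+ κ), (∀ x, L (dF i x) = 0) → ∀ x,
      (L.comp (p i).toAddMonoidHom) (d i x) = 0 := by
    intro i L hL x
    show L (p i (d i x)) = 0
    rw [← dp, hL]
  refine ⟨?_, ?_⟩
  · rintro n ⟨z, l, hz, hl, hld, hlz⟩
    refine dual χ0 P d (i := 0) (n := n) (m := 0) (fun j => f 0 (z j)) (fun j => 0)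
      (fun j => (l j).comp (p 0).toAddMonoidHom) (fun j => 0) (χ s₁) 1 hs1 one_ne_zero
      (fun j => trivial) (fun j => trivial) (fun j => aF 0 _ (hl j)) (fun j => j.elim0)
      (fun j => ad 0 _ (hld j)) (fun j => j.elim0) ?_ (fun j => j.elim0) (fun j => j.elim0)
    intro j k
    show l j (p 0 (f 0 (z k))) = _
    rw [pf0, map_add, hl j, hld, add_zero, hlz]
    split_ifs
    · rw [mul_one]
    · rw [mul_zero]
  · rintro k n m ⟨z, l, hz, hl, hld, hlz⟩ ⟨w, t, hw, ht, htd, htw⟩
    -- the second family of functionals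
    let T : P k →+ G k := ((r k).comp (τ k)).toAddMonoidHom
    let b : Fin m → P (k + 1) →+ κ := fun j =>
      (t j).comp (T.comp ((d k).toAddMonoidHom.comp (σ (k + 1)).toAddMonoidHom))
    have hbdef : ∀ j x, b j x = t j (r k (τ k (d k (σ (k + 1) x)))) := fun j x => rfl
    have hb1 : ∀ j x, b j x = t j (r k (τ k (d k x))) := by
      intro j x
      rw [hbdef]
      have e1 : σ (k + 1) x = x - (X : C[X]) • τ (k + 1) x := by
        rw [eq_sub_iff_add_eq]; exact (hστ (k + 1) x).symm
      rw [e1, map_sub, map_smul, map_sub, τX, map_sub, map_sub, ← dr, htd, sub_zero]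
    have hbF : ∀ j, IsF χ0 (b j) := by
      intro j
      refine mkF _ _ (fun c x => ?_) (fun x => ?_)
      · rw [hbdef, hbdef, map_smul, dC, map_smul, map_smul, ht j]
      · rw [hbdef, σX, map_zero, map_zero, map_zero, map_zero]
    have hbd : ∀ j x, b j (d (k + 1) x) = 0 := by
      intro j x
      rw [hb1, dd, map_zero, map_zero, map_zero]
    refine dual χ0 P d (i := k + 1) (fun j => f (k + 1) (z j)) (fun j => h k (w j))
      (fun j => (l j).comp (p (k + 1)).toAddMonoidHom) b (χ s₁) (χ s₂) hs1 hs2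
      ?_ ?_ (fun j => aF _ _ (hl j)) hbF (fun j => ad _ _ (hld j)) hbd ?_ ?_ ?_
    · -- cycles, first family
      intro j L hL
      rw [df]
      exact hz j (L.comp (f k).toAddMonoidHom) (fun c x => by
        show L (f k (c • x)) = χ c * L (f k x)
        rw [map_smul, toC k L hL])
    · -- cycles, second family
      intro j L hL
      cases k with
      | zero => rw [← h0, hL, chiX, zero_mul]
      | succ k' =>
        have e : d (k' + 1) (h (k' + 1) (w j)) =
            (X : C[X]) • g (k' + 1) (w j) - h k' (dG k' (w j)) := by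
          rw [h1]; abel
        rw [e, map_sub, hL, chiX, zero_mul, zero_sub, neg_eq_zero]
        exact hw j (L.comp (h k').toAddMonoidHom) (fun c x => by
          show L (h k' (c • x)) = χ c * L (h k' x)
          rw [map_smul, toC _ L hL])
    · intro j q
      show l j (p (k + 1) (f (k + 1) (z q))) = _
      have e : l j (u k (dF k (z q))) = 0 :=
        hz q ((l j).comp (u k).toAddMonoidHom) (fun c x => by
          show l j (u k (c • x)) = χ c * l j (u k x)
          rw [map_smul, hl j])
      rw [pf1, map_add, map_add, hl j, hld, e, add_zero, add_zero, hlz]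
      split_ifs
      · rw [mul_one]
      · rw [mul_zero]
    · intro j q
      rw [hb1, df]
      exact hz q ((t j).comp (((r k).comp ((τ k).comp (f k))).toAddMonoidHom)) (fun c x => by
        show t j (r k (τ k (f k (c • x)))) = χ c * t j (r k (τ k (f k x)))
        rw [map_smul, map_smul, map_smul, ht j])
    · intro j q
      rw [hb1]
      cases k with
      | zero =>
        rw [← h0, τX, rg0, map_add, ht j, htd, add_zero, htw]
        split_ifs
        · rw [mul_one]
        · rw [mul_zero]
      | succ k' =>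
        have e : d (k' + 1) (h (k' + 1) (w q)) =
            (X : C[X]) • g (k' + 1) (w q) - h k' (dG k' (w q)) := by
          rw [h1]; abel
        have e2 : t j (r (k' + 1) (τ (k' + 1) (h k' (dG k' (w q))))) = 0 :=
          hw q ((t j).comp (((r (k' + 1)).comp ((τ (k' + 1)).comp (h k'))).toAddMonoidHom))
            (fun c x => by
              show t j (r (k' + 1) (τ (k' + 1) (h k' (c • x)))) =
                χ c * t j (r (k' + 1) (τ (k' + 1) (h k' x)))
              rw [map_smul, map_smul, map_smul, ht j])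
        have e3 : t j (v k' (dG k' (w q))) = 0 :=
          hw q ((t j).comp (v k').toAddMonoidHom) (fun c x => by
            show t j (v k' (c • x)) = χ c * t j (v k' x)
            rw [map_smul, ht j])
        rw [e, map_sub, τX, map_sub, map_sub, e2, sub_zero, rg1, map_add, map_add, ht j, htd, e3,
          add_zero, add_zero, htw]
        split_ifs
        · rw [mul_one]
        · rw [mul_zero]

end Pool.Agent.W240.BECORE
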