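import Pool.Agent.W921.VP.DefsC

set_option autoImplicit false

/-! The axioms of structures of tuples are sentences `∀^a ∃^b`. -/

namespace Pool.Agent.W240.VPSYN

open FirstOrder Set
open FirstOrder.Language (Theory BoundedFormula Term)
open Pool.Agent.W921.VP

section quant

variable {L : FirstOrder.Language.{0, 0}}

/-- Truth of a formula in a structure on the natural numbers. -/
def Rz {n : ℕ} (N : L.Structure ℕ) (φ : L.BoundedFormula Empty n) (v : Fin n → ℕ) : Prop :=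
  @BoundedFormula.Realize L ℕ N Empty n φ Empty.elim v

theorem exs : ∀ (b n m : ℕ) (h : n + b = m) (ψ : L.BoundedFormula Empty m), ψ.IsQF →
    ∃ σ : L.BoundedFormula Empty n, Pre 0 0 b σ ∧ ∀ (N : L.Structure ℕ) (v : Fin n → ℕ),
      Rz N σ v ↔ ∃ u : Fin m → ℕ, (∀ i : Fin n, u (Fin.castLE (by omega) i) = v i) ∧ Rz N ψ u := by
  intro b
  induction b with
  | zero =>
    intro n m h ψ hψ
    have h' : n = m := h
    subst h'
    refine ⟨ψ, Pre.qf hψ, fun N v => ⟨fun hv => ⟨v, fun i => rfl, hv⟩, ?_⟩⟩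
    rintro ⟨u, hu, hr⟩
    have : u = v := funext fun i => hu i
    rwa [this] at hr
  | succ b ih =>
    intro n m h ψ hψ
    obtain ⟨σ, hσ, hr⟩ := ih (n + 1) m (by omega) ψ hψ
    refine ⟨σ.ex, Pre.ex hσ, fun N v => ?_⟩
    have e1 : Rz N σ.ex v ↔ ∃ c, Rz N σ (Fin.snoc v c) :=
      @BoundedFormula.realize_ex L ℕ N Empty n σ Empty.elim v
    rw [e1]
    constructor
    · rintro ⟨c, hc⟩
      obtain ⟨u, hu, hu'⟩ := (hr N _).1 hc
      refine ⟨u, fun i => ?_, hu'⟩
      have := hu i.castSucc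
      rw [Fin.snoc_castSucc] at this
      exact this
    · rintro ⟨u, hu, hu'⟩
      refine ⟨u ⟨n, by omega⟩, (hr N _).2 ⟨u, fun i => ?_, hu'⟩⟩
      refine Fin.lastCases ?_ (fun j => ?_) i
      · rw [Fin.snoc_last]
        rfl
      · rw [Fin.snoc_castSucc]
        exact hu j

theorem alls (b : ℕ) : ∀ (a n m : ℕ) (h : n + a = m) (ψ : L.BoundedFormula Empty m),
    Pre 0 0 b ψ →
    ∃ σ : L.BoundedFormula Empty n, Pre 0 a b σ ∧ ∀ (N : L.Structure ℕ) (v : Fin n → ℕ),
      Rz N σ v ↔ ∀ u : Fin m → ℕ, (∀ i : Fin n, u (Fin.castLE (by omega) i) = v i) → Rz N ψ u := by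
  intro a
  induction a with
  | zero =>
    intro n m h ψ hψ
    have h' : n = m := h
    subst h'
    refine ⟨ψ, hψ, fun N v => ⟨fun hv u hu => ?_, fun hv => hv v fun i => rfl⟩⟩
    have : u = v := funext fun i => hu i
    rwa [this]
  | succ a ih =>
    intro n m h ψ hψ
    obtain ⟨σ, hσ, hr⟩ := ih (n + 1) m (by omega) ψ hψ
    refine ⟨σ.all, Pre.all hσ, fun N v => ?_⟩
    have e1 : Rz N σ.all v ↔ ∀ c, Rz N σ (Fin.snoc v c) := Iff.rfl
    rw [e1]
    constructor
    · intro hc u hu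
      refine (hr N _).1 (hc (u ⟨n, by omega⟩)) u fun i => ?_
      refine Fin.lastCases ?_ (fun j => ?_) i
      · rw [Fin.snoc_last]
        rfl
      · rw [Fin.snoc_castSucc]
        exact hu j
    · intro hu c
      refine (hr N _).2 fun u hu' => hu u fun i => ?_
      have := hu' i.castSucc
      rw [Fin.snoc_castSucc] at this
      exact this

end quant

section defs

variable {L : FirstOrder.Language.{0, 0}} {a b : ℕ}

/-- The variables that are used. -/
def sel (a b : ℕ) (ha : 3 ≤ a) (hb : 1 ≤ b) : Fin 4 → Fin (a + b) :=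
  ![⟨0, by omega⟩, ⟨1, by omega⟩, ⟨2, by omega⟩, ⟨a, by omega⟩]

/-- Predicates of four variables given by quantifier-free formulas. -/
def Q4 (L : FirstOrder.Language.{0, 0}) (a b : ℕ) (ha : 3 ≤ a) (hb : 1 ≤ b)
    (p : L.Structure ℕ → (Fin 4 → ℕ) → Prop) : Prop :=
  ∃ ψ : L.BoundedFormula Empty (a + b), ψ.IsQF ∧ ∀ (N : L.Structure ℕ) (v : Fin (a + b) → ℕ),
    Rz N ψ v ↔ p N (fun i => v (sel a b ha hb i))

variable {ha : 3 ≤ a} {hb : 1 ≤ b} {p q : L.Structure ℕ → (Fin 4 → ℕ) → Prop}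

theorem Q4.fal : Q4 L a b ha hb (fun _ _ => False) :=
  ⟨BoundedFormula.falsum, BoundedFormula.IsQF.falsum, fun _ _ => Iff.rfl⟩

theorem Q4.imp (hp : Q4 L a b ha hb p) (hq : Q4 L a b ha hb q) :
    Q4 L a b ha hb (fun N v => p N v → q N v) := by
  obtain ⟨φ, h1, h2⟩ := hp
  obtain ⟨ψ, h3, h4⟩ := hq
  exact ⟨φ.imp ψ, h1.imp h3, fun N v => ⟨fun h hh => (h4 N v).1 (h ((h2 N v).2 hh)),
    fun h hh => (h4 N v).2 (h ((h2 N v).1 hh))⟩⟩

theorem Q4.congr (hp : Q4 L a b ha hb p) (h : ∀ N v, p N v ↔ q N v) : Q4 L a b ha hb q := by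
  obtain ⟨φ, h1, h2⟩ := hp
  exact ⟨φ, h1, fun N v => (h2 N v).trans (h _ _)⟩

theorem Q4.not (hp : Q4 L a b ha hb p) : Q4 L a b ha hb (fun N v => ¬ p N v) :=
  (hp.imp Q4.fal).congr fun _ _ => Iff.rfl

theorem Q4.and (hp : Q4 L a b ha hb p) (hq : Q4 L a b ha hb q) :
    Q4 L a b ha hb (fun N v => p N v ∧ q N v) :=
  (hp.imp hq.not).not.congr fun N v => by tauto

theorem Q4.or (hp : Q4 L a b ha hb p) (hq : Q4 L a b ha hb q) :
    Q4 L a b ha hb (fun N v => p N v ∨ q N v) :=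
  (hp.not.imp hq).congr fun N v => by tauto

theorem Q4.iff (hp : Q4 L a b ha hb p) (hq : Q4 L a b ha hb q) :
    Q4 L a b ha hb (fun N v => (p N v ↔ q N v)) :=
  ((hp.imp hq).and (hq.imp hp)).congr fun N v => by tauto

theorem Q4.all {ι : Type} [Finite ι] {P : ι → L.Structure ℕ → (Fin 4 → ℕ) → Prop}
    (h : ∀ i, Q4 L a b ha hb (P i)) : Q4 L a b ha hb (fun N v => ∀ i, P i N v) := by
  classical
  cases nonempty_fintype ι
  have h1 : ∀ s : Finset ι, Q4 L a b ha hb (fun N v => ∀ i ∈ s, P i N v) := by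
    intro s
    induction s using Finset.induction_on with
    | empty => exact (Q4.fal.not).congr fun N v => by simp
    | insert j s _ ih => exact ((h j).and ih).congr fun N v => by simp [Finset.forall_mem_insert]
  exact (h1 Finset.univ).congr fun N v => by simp

theorem Q4.exi {ι : Type} [Finite ι] {P : ι → L.Structure ℕ → (Fin 4 → ℕ) → Prop}
    (h : ∀ i, Q4 L a b ha hb (P i)) : Q4 L a b ha hb (fun N v => ∃ i, P i N v) :=
  (Q4.all fun i => (h i).not).not.congr fun N v => by simp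

theorem Q4.cond {c : Prop} (h : c → Q4 L a b ha hb p) :
    Q4 L a b ha hb (fun N v => c → p N v) := by
  by_cases hc : c
  · exact (h hc).congr fun N v => by simp [hc]
  · exact Q4.fal.not.congr fun N v => by simp [hc]

theorem Q4.eq (i j : Fin 4) : Q4 L a b ha hb (fun _ v => v i = v j) :=
  ⟨BoundedFormula.equal (Term.var (Sum.inr (sel a b ha hb i)))
      (Term.var (Sum.inr (sel a b ha hb j))),
    BoundedFormula.IsQF.of_isAtomic (BoundedFormula.IsAtomic.equal _ _), fun _ _ => Iff.rfl⟩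

theorem Q4.rel {k : ℕ} (R : L.Relations k) (t : Fin k → Fin 4) :
    Q4 L a b ha hb (fun N v => N.RelMap R (fun i => v (t i))) :=
  ⟨BoundedFormula.rel R (fun i => Term.var (Sum.inr (sel a b ha hb (t i)))),
    BoundedFormula.IsQF.of_isAtomic (BoundedFormula.IsAtomic.rel _ _), fun _ _ => Iff.rfl⟩

/-- The sentence. -/
theorem good (hp : Q4 L a b ha hb p) : ∃ σ : L.BoundedFormula Empty 0, Pre 0 a b σ ∧
    ∀ N : L.Structure ℕ, Rz N σ Fin.elim0 ↔ ∀ x y z : ℕ, ∃ w : ℕ, p N ![x, y, z, w] := by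
  obtain ⟨ψ, h1, h2⟩ := hp
  obtain ⟨σ, h3, h4⟩ := exs b a (a + b) rfl ψ h1
  obtain ⟨τ, h5, h6⟩ := alls b a 0 a (by omega) σ h3
  refine ⟨τ, h5, fun N => (h6 N _).trans ?_⟩
  constructor
  · intro H x y z
    have h7 := H (fun i => if i.val = 0 then x else if i.val = 1 then y else z)
      (fun i => i.elim0)
    obtain ⟨u, h8, h9⟩ := (h4 N _).1 h7
    refine ⟨u ⟨a, by omega⟩, ?_⟩
    have h10 := (h2 N u).1 h9
    have e1 : (fun i => u (sel a b ha hb i)) = ![x, y, z, u ⟨a, by omega⟩] := by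
      funext i
      fin_cases i
      · exact h8 ⟨0, by omega⟩
      · exact h8 ⟨1, by omega⟩
      · exact h8 ⟨2, by omega⟩
      · rfl
    rwa [e1] at h10
  · intro H u _
    obtain ⟨w, hw⟩ := H (u ⟨0, by omega⟩) (u ⟨1, by omega⟩) (u ⟨2, by omega⟩)
    refine (h4 N _).2 ⟨fun i => if h : i.val < a then u ⟨i.val, h⟩ else w, fun i => ?_, ?_⟩
    · have : (Fin.castLE (by omega : a ≤ a + b) i).val < a := i.isLt
      simp only [this, dif_pos]
      rfl
    · refine (h2 N _).2 ?_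
      have e1 : (fun i => (fun i : Fin (a + b) => if h : i.val < a then u ⟨i.val, h⟩ else w)
          (sel a b ha hb i)) =
          ![u ⟨0, by omega⟩, u ⟨1, by omega⟩, u ⟨2, by omega⟩, w] := by
        funext i
        fin_cases i
        · simp [sel, show 0 < a by omega]
        · simp [sel, show 1 < a by omega]
        · simp [sel, show 2 < a by omega]
        · simp [sel]
      rw [e1]
      exact hw

end defs

section tl

variable {L : FirstOrder.Language.{0, 0}} {a b : ℕ} {ha : 3 ≤ a} {hb : 1 ≤ b}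

theorem qLen (n : ℕ) (i : Fin 4) : Q4 (TL L) a b ha hb (fun N v => Len N n (v i)) :=
  (Q4.rel (L := TL L) (TRel.len n : (TL L).Relations 1) (fun _ => i)).congr fun N v => by
    have : (fun _ : Fin 1 => v i) = ![v i] := by
      funext j
      rw [Subsingleton.elim j 0]
      rfl
    rw [this]
    exact Iff.rfl

theorem qSat (n : ℕ) (φ : L.BoundedFormula Empty n) (i : Fin 4) :
    Q4 (TL L) a b ha hb (fun N v => Sat N n φ (v i)) :=
  (Q4.rel (L := TL L) (TRel.sat n φ : (TL L).Relations 1) (fun _ => i)).congr fun N v => by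
    have : (fun _ : Fin 1 => v i) = ![v i] := by
      funext j
      rw [Subsingleton.elim j 0]
      rfl
    rw [this]
    exact Iff.rfl

theorem qSub (n k : ℕ) (w : Fin k → Fin n) (i j : Fin 4) :
    Q4 (TL L) a b ha hb (fun N v => Sub N n k w (v i) (v j)) :=
  (Q4.rel (L := TL L) (TRel.sub n k w : (TL L).Relations 2) ![i, j]).congr fun N v => by
    have : (fun l : Fin 2 => v (![i, j] l)) = ![v i, v j] := by
      funext l
      fin_cases l <;> rfl
    rw [this]
    exact Iff.rfl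

/-- The theory. -/
def Th (T : L.Theory) (a b : ℕ) : (TL L).Theory :=
  {σ | Pre 0 a b (σ : (TL L).BoundedFormula Empty 0) ∧
    ∀ N : (TL L).Structure ℕ, Ax T N → Rz N (σ : (TL L).BoundedFormula Empty 0) Fin.elim0}

theorem rz_iff (N : (TL L).Structure ℕ) (σ : (TL L).Sentence) :
    @Language.Sentence.Realize (TL L) ℕ N σ ↔
      Rz N (σ : (TL L).BoundedFormula Empty 0) Fin.elim0 := by
  have h2 : ∀ (e e' : Empty → ℕ) (c c' : Fin 0 → ℕ),
      @BoundedFormula.Realize (TL L) ℕ N Empty 0 σ e c →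
      @BoundedFormula.Realize (TL L) ℕ N Empty 0 σ e' c' := fun e e' c c' h => by
    rw [Subsingleton.elim e' e, Subsingleton.elim c' c]
    exact h
  exact ⟨fun h => h2 _ _ _ _ h, fun h => h2 _ _ _ _ h⟩

theorem use {T : L.Theory} {p : (TL L).Structure ℕ → (Fin 4 → ℕ) → Prop}
    (hp : Q4 (TL L) a b ha hb p)
    (hax : ∀ N, Ax T N → ∀ x y z : ℕ, ∃ w : ℕ, p N ![x, y, z, w])
    {N : (TL L).Structure ℕ} (hN : Mods N (Th T a b)) (x y z : ℕ) :
    ∃ w : ℕ, p N ![x, y, z, w] := by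
  obtain ⟨σ, h1, h2⟩ := good hp
  have h3 : (σ : (TL L).Sentence) ∈ Th T a b := ⟨h1, fun N' hN' => (h2 N').2 (hax N' hN')⟩
  have h4 := (rz_iff N σ).1 (hN.realize_of_mem σ h3)
  exact (h2 N).1 h4 x y z

end tl

theorem task : S_SYN := by
  intro L _ T a b ha hb
  refine ⟨Th T a b, fun σ hσ => hσ.1, fun N => ⟨fun hN => ?_, fun hN => ?_⟩⟩
  · constructor
    · intro m n x hmn h1 h2
      obtain ⟨w, hw⟩ := use (ha := ha) (hb := hb)
        ((qLen m 0).imp (qLen n 0).not) (fun N' h' x y z => ⟨0, h'.len_disj m n x hmn⟩) hN x 0 0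
      exact hw h1 h2
    · intro n k v x y h1
      obtain ⟨w, hw⟩ := use (ha := ha) (hb := hb)
        ((qSub n k v 0 1).imp ((qLen n 0).and (qLen k 1)))
        (fun N' h' x y z => ⟨0, h'.sub_len n k v x y⟩) hN x y 0
      exact hw h1
    · intro n φ x h1
      obtain ⟨w, hw⟩ := use (ha := ha) (hb := hb)
        ((qSat n φ 0).imp (qLen n 0)) (fun N' h' x y z => ⟨0, h'.sat_len n φ x⟩) hN x 0 0
      exact hw h1
    · intro n k v x y z h1 h2
      obtain ⟨w, hw⟩ := use (ha := ha) (hb := hb)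
        ((qSub n k v 0 1).imp ((qSub n k v 0 2).imp (Q4.eq 1 2)))
        (fun N' h' x y z => ⟨0, h'.sub_fun n k v x y z⟩) hN x y z
      exact hw h1 h2
    · intro n k l v u x y z h1 h2
      obtain ⟨w, hw⟩ := use (ha := ha) (hb := hb)
        ((qSub n k v 0 1).imp ((qSub k l u 1 2).imp (qSub n l (v ∘ u) 0 2)))
        (fun N' h' x y z => ⟨0, h'.sub_comp n k l v u x y z⟩) hN x y z
      exact hw h1 h2
    · intro n k v x h1
      obtain ⟨w, hw⟩ := use (ha := ha) (hb := hb)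
        ((qLen n 0).imp (qSub n k v 0 3))
        (fun N' h' x y z => by
          by_cases h : Len N' n x
          · obtain ⟨w, hw⟩ := h'.sub_tot n k v x h
            exact ⟨w, fun _ => hw⟩
          · exact ⟨0, fun h'' => absurd h'' h⟩) hN x 0 0
      exact ⟨w, hw h1⟩
    · intro n x y h1 h2 h3
      obtain ⟨w, hw⟩ := use (ha := ha) (hb := hb)
        ((qLen n 0).imp ((qLen n 1).imp ((Q4.eq 0 1).not.imp
          (Q4.exi fun i : Fin n => (qSub n 1 (fun _ => i) 0 3).and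
            (qSub n 1 (fun _ => i) 1 3).not))))
        (fun N' h' x y z => by
          by_cases h : Len N' n x ∧ Len N' n y ∧ x ≠ y
          · obtain ⟨w, i, hw⟩ := h'.ext n x y h.1 h.2.1 h.2.2
            exact ⟨w, fun _ _ _ => ⟨i, hw⟩⟩
          · exact ⟨0, fun g1 g2 g3 => absurd ⟨g1, g2, g3⟩ h⟩) hN x y 0
      obtain ⟨i, hi⟩ := hw h1 h2 h3
      exact ⟨w, i, hi⟩
    · intro n x y h1 h2
      obtain ⟨w, hw⟩ := use (ha := ha) (hb := hb)
        ((qLen n 0).imp ((qLen 1 1).imp ((qSub (n + 1) n Fin.castSucc 3 0).and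
          (qSub (n + 1) 1 (fun _ => Fin.last n) 3 1))))
        (fun N' h' x y z => by
          by_cases h : Len N' n x ∧ Len N' 1 y
          · obtain ⟨w, hw⟩ := h'.amalg n x y h.1 h.2
            exact ⟨w, fun _ _ => hw⟩
          · exact ⟨0, fun g1 g2 => absurd ⟨g1, g2⟩ h⟩) hN x y 0
      exact ⟨w, hw h1 h2⟩
    · obtain ⟨w, hw⟩ := use (ha := ha) (hb := hb) (qLen 0 3)
        (fun N' h' x y z => h'.nil) hN 0 0 0
      exact ⟨w, hw⟩
    · intro n
      obtain ⟨w, hw⟩ := use (ha := ha) (hb := hb)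
        ((qLen n 3).and (Q4.all fun i : Fin n => Q4.all fun j : Fin n =>
          Q4.cond (c := i ≠ j) fun _ => (qSat n (eqF n i j) 3).not))
        (fun N' h' x y z => h'.inf n) hN 0 0 0
      exact ⟨w, hw⟩
    · intro n x
      obtain ⟨w, hw⟩ := use (ha := ha) (hb := hb) (qSat n BoundedFormula.falsum 0).not
        (fun N' h' x y z => ⟨0, h'.sat_fal n x⟩) hN x 0 0
      exact hw
    · intro n φ ψ x h1
      obtain ⟨w, hw⟩ := use (ha := ha) (hb := hb)
        ((qLen n 0).imp ((qSat n (φ.imp ψ) 0).iff ((qSat n φ 0).imp (qSat n ψ 0))))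
        (fun N' h' x y z => ⟨0, h'.sat_imp n φ ψ x⟩) hN x 0 0
      exact hw h1
    · intro n φ x y h1 h2
      obtain ⟨w, hw⟩ := use (ha := ha) (hb := hb)
        ((qSub (n + 1) n Fin.castSucc 1 0).imp ((qSat n φ.all 0).imp (qSat (n + 1) φ 1)))
        (fun N' h' x y z => ⟨0, h'.sat_all n φ x y⟩) hN x y 0
      exact hw h1 h2
    · intro n φ x h1 h2
      obtain ⟨w, hw⟩ := use (ha := ha) (hb := hb)
        ((qLen n 0).imp ((qSat n φ.all 0).not.imp
          ((qSub (n + 1) n Fin.castSucc 3 0).and (qSat (n + 1) φ 3).not)))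
        (fun N' h' x y z => by
          by_cases h : Len N' n x ∧ ¬ Sat N' n φ.all x
          · obtain ⟨w, hw⟩ := h'.sat_ex n φ x h.1 h.2
            exact ⟨w, fun _ _ => hw⟩
          · exact ⟨0, fun g1 g2 => absurd ⟨g1, g2⟩ h⟩) hN x 0 0
      exact ⟨w, hw h1 h2⟩
    · intro n i j x y z h1 h2
      obtain ⟨w, hw⟩ := use (ha := ha) (hb := hb)
        ((qSub n 1 (fun _ => i) 0 1).imp ((qSub n 1 (fun _ => j) 0 2).imp
          ((qSat n (eqF n i j) 0).iff (Q4.eq 1 2))))
        (fun N' h' x y z => ⟨0, h'.sat_eq n i j x y z⟩) hN x y z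
      exact hw h1 h2
    · intro n k R v x y h1
      obtain ⟨w, hw⟩ := use (ha := ha) (hb := hb)
        ((qSub n k v 0 1).imp ((qSat n (relF n R v) 0).iff (qSat k (relF k R id) 1)))
        (fun N' h' x y z => ⟨0, h'.sat_rel n k R v x y⟩) hN x y 0
      exact hw h1
    · intro σ hσ x h1
      obtain ⟨w, hw⟩ := use (ha := ha) (hb := hb)
        ((qLen 0 0).imp (qSat 0 σ 0)) (fun N' h' x y z => ⟨0, h'.sat_T σ hσ x⟩) hN x 0 0
      exact hw h1
  · refine @Theory.Model.mk (TL L) ℕ N (Th T a b) fun σ hσ => ?_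
    exact (rz_iff N σ).2 (hσ.2 N hN)

end Pool.Agent.W240.VPSYN
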