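import Pool.Agent.W921.VP.DefsD
import Pool.Agent.W240.VPSYN

set_option autoImplicit false

/-! The axioms of structures of tuples are sentences `∀∀∀` or `∀∀∃`. -/

namespace Pool.Agent.W240.VPSYN2

open FirstOrder Set
open FirstOrder.Language (Theory BoundedFormula Term)
open Pool.Agent.W921.VP
open Pool.Agent.W240.VPSYN (Rz exs alls rz_iff)

section defs

variable {L : FirstOrder.Language.{0, 0}} {s : Fin 4 → Fin 3}

/-- Predicates of four variables given by quantifier-free formulas. -/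
def Q4 (L : FirstOrder.Language.{0, 0}) (s : Fin 4 → Fin 3)
    (p : L.Structure ℕ → (Fin 4 → ℕ) → Prop) : Prop :=
  ∃ ψ : L.BoundedFormula Empty 3, ψ.IsQF ∧ ∀ (N : L.Structure ℕ) (v : Fin 3 → ℕ),
    Rz N ψ v ↔ p N (fun i => v (s i))

variable {p q : L.Structure ℕ → (Fin 4 → ℕ) → Prop}

theorem Q4.fal : Q4 L s (fun _ _ => False) :=
  ⟨BoundedFormula.falsum, BoundedFormula.IsQF.falsum, fun _ _ => Iff.rfl⟩

theorem Q4.imp (hp : Q4 L s p) (hq : Q4 L s q) :
    Q4 L s (fun N v => p N v → q N v) := by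
  obtain ⟨φ, h1, h2⟩ := hp
  obtain ⟨ψ, h3, h4⟩ := hq
  exact ⟨φ.imp ψ, h1.imp h3, fun N v => ⟨fun h hh => (h4 N v).1 (h ((h2 N v).2 hh)),
    fun h hh => (h4 N v).2 (h ((h2 N v).1 hh))⟩⟩

theorem Q4.congr (hp : Q4 L s p) (h : ∀ N v, p N v ↔ q N v) : Q4 L s q := by
  obtain ⟨φ, h1, h2⟩ := hp
  exact ⟨φ, h1, fun N v => (h2 N v).trans (h _ _)⟩

theorem Q4.not (hp : Q4 L s p) : Q4 L s (fun N v => ¬ p N v) :=
  (hp.imp Q4.fal).congr fun _ _ => Iff.rfl

theorem Q4.and (hp : Q4 L s p) (hq : Q4 L s q) :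
    Q4 L s (fun N v => p N v ∧ q N v) :=
  (hp.imp hq.not).not.congr fun N v => by tauto

theorem Q4.or (hp : Q4 L s p) (hq : Q4 L s q) :
    Q4 L s (fun N v => p N v ∨ q N v) :=
  (hp.not.imp hq).congr fun N v => by tauto

theorem Q4.iff (hp : Q4 L s p) (hq : Q4 L s q) :
    Q4 L s (fun N v => (p N v ↔ q N v)) :=
  ((hp.imp hq).and (hq.imp hp)).congr fun N v => by tauto

theorem Q4.all {ι : Type} [Finite ι] {P : ι → L.Structure ℕ → (Fin 4 → ℕ) → Prop}
    (h : ∀ i, Q4 L s (P i)) : Q4 L s (fun N v => ∀ i, P i N v) := by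
  classical
  cases nonempty_fintype ι
  have h1 : ∀ F : Finset ι, Q4 L s (fun N v => ∀ i ∈ F, P i N v) := by
    intro F
    induction F using Finset.induction_on with
    | empty => exact (Q4.fal.not).congr fun N v => by simp
    | insert j F _ ih => exact ((h j).and ih).congr fun N v => by simp
  exact (h1 Finset.univ).congr fun N v => by simp

theorem Q4.exi {ι : Type} [Finite ι] {P : ι → L.Structure ℕ → (Fin 4 → ℕ) → Prop}
    (h : ∀ i, Q4 L s (P i)) : Q4 L s (fun N v => ∃ i, P i N v) :=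
  (Q4.all fun i => (h i).not).not.congr fun N v => by simp

theorem Q4.cond {c : Prop} (h : c → Q4 L s p) :
    Q4 L s (fun N v => c → p N v) := by
  by_cases hc : c
  · exact (h hc).congr fun N v => by simp [hc]
  · exact Q4.fal.not.congr fun N v => by simp [hc]

theorem Q4.eq (i j : Fin 4) : Q4 L s (fun _ v => v i = v j) :=
  ⟨BoundedFormula.equal (Term.var (Sum.inr (s i)))
      (Term.var (Sum.inr (s j))),
    BoundedFormula.IsQF.of_isAtomic (BoundedFormula.IsAtomic.equal _ _), fun _ _ => Iff.rfl⟩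

theorem Q4.rel {k : ℕ} (R : L.Relations k) (t : Fin k → Fin 4) :
    Q4 L s (fun N v => N.RelMap R (fun i => v (t i))) :=
  ⟨BoundedFormula.rel R (fun i => Term.var (Sum.inr (s (t i)))),
    BoundedFormula.IsQF.of_isAtomic (BoundedFormula.IsAtomic.rel _ _), fun _ _ => Iff.rfl⟩

/-- The universal sentence. -/
theorem goodU (hp : Q4 L ![0, 1, 2, 0] p) : ∃ σ : L.BoundedFormula Empty 0, Pre 0 3 0 σ ∧
    ∀ N : L.Structure ℕ, Rz N σ Fin.elim0 ↔ ∀ x y z : ℕ, p N ![x, y, z, x] := by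
  obtain ⟨ψ, h1, h2⟩ := hp
  obtain ⟨τ, h5, h6⟩ := alls 0 3 0 3 (by omega) ψ (Pre.qf h1)
  refine ⟨τ, h5, fun N => (h6 N _).trans ?_⟩
  constructor
  · intro H x y z
    have h7 := (h2 N _).1 (H ![x, y, z] (fun i => i.elim0))
    have e1 : (fun i => (![x, y, z] : Fin 3 → ℕ) ((![0, 1, 2, 0] : Fin 4 → Fin 3) i)) =
        ![x, y, z, x] := by
      funext i
      fin_cases i <;> rfl
    rwa [e1] at h7
  · intro H u _
    refine (h2 N u).2 ?_
    have e1 : (fun i => u ((![0, 1, 2, 0] : Fin 4 → Fin 3) i)) = ![u 0, u 1, u 2, u 0] := by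
      funext i
      fin_cases i <;> rfl
    rw [e1]
    exact H _ _ _

/-- The sentence with one existential quantifier. -/
theorem goodE (hp : Q4 L ![0, 1, 0, 2] p) : ∃ σ : L.BoundedFormula Empty 0, Pre 0 2 1 σ ∧
    ∀ N : L.Structure ℕ, Rz N σ Fin.elim0 ↔ ∀ x y : ℕ, ∃ w : ℕ, p N ![x, y, x, w] := by
  obtain ⟨ψ, h1, h2⟩ := hp
  obtain ⟨σ, h3, h4⟩ := exs 1 2 3 rfl ψ h1
  obtain ⟨τ, h5, h6⟩ := alls 1 2 0 2 (by omega) σ h3
  refine ⟨τ, h5, fun N => (h6 N _).trans ?_⟩
  constructor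
  · intro H x y
    have h7 := H ![x, y] (fun i => i.elim0)
    obtain ⟨u, h8, h9⟩ := (h4 N _).1 h7
    refine ⟨u 2, ?_⟩
    have h10 := (h2 N u).1 h9
    have e1 : (fun i => u ((![0, 1, 0, 2] : Fin 4 → Fin 3) i)) = ![x, y, x, u 2] := by
      funext i
      fin_cases i
      · exact h8 0
      · exact h8 1
      · exact h8 0
      · rfl
    rwa [e1] at h10
  · intro H u _
    obtain ⟨w, hw⟩ := H (u 0) (u 1)
    refine (h4 N _).2 ⟨![u 0, u 1, w], fun i => ?_, ?_⟩
    · fin_cases i <;> rfl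
    · refine (h2 N _).2 ?_
      have e1 : (fun i => (![u 0, u 1, w] : Fin 3 → ℕ) ((![0, 1, 0, 2] : Fin 4 → Fin 3) i)) =
          ![u 0, u 1, u 0, w] := by
        funext i
        fin_cases i <;> rfl
      rw [e1]
      exact hw

end defs

section tl

variable {L : FirstOrder.Language.{0, 0}} {s : Fin 4 → Fin 3}

theorem qLen (n : ℕ) (i : Fin 4) : Q4 (TL L) s (fun N v => Len N n (v i)) :=
  (Q4.rel (L := TL L) (TRel.len n : (TL L).Relations 1) (fun _ => i)).congr fun N v => by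
    have : (fun _ : Fin 1 => v i) = ![v i] := by
      funext j
      rw [Subsingleton.elim j 0]
      rfl
    rw [this]
    exact Iff.rfl

theorem qSat (n : ℕ) (φ : L.BoundedFormula Empty n) (i : Fin 4) :
    Q4 (TL L) s (fun N v => Sat N n φ (v i)) :=
  (Q4.rel (L := TL L) (TRel.sat n φ : (TL L).Relations 1) (fun _ => i)).congr fun N v => by
    have : (fun _ : Fin 1 => v i) = ![v i] := by
      funext j
      rw [Subsingleton.elim j 0]
      rfl
    rw [this]
    exact Iff.rfl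

theorem qSub (n k : ℕ) (w : Fin k → Fin n) (i j : Fin 4) :
    Q4 (TL L) s (fun N v => Sub N n k w (v i) (v j)) :=
  (Q4.rel (L := TL L) (TRel.sub n k w : (TL L).Relations 2) ![i, j]).congr fun N v => by
    have : (fun l : Fin 2 => v (![i, j] l)) = ![v i, v j] := by
      funext l
      fin_cases l <;> rfl
    rw [this]
    exact Iff.rfl

/-- The theory. -/
def Th (T : L.Theory) : (TL L).Theory :=
  {σ | (Pre 0 3 0 (σ : (TL L).BoundedFormula Empty 0) ∨
    Pre 0 2 1 (σ : (TL L).BoundedFormula Empty 0)) ∧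
    ∀ N : (TL L).Structure ℕ, Ax T N → Rz N (σ : (TL L).BoundedFormula Empty 0) Fin.elim0}

theorem useU {T : L.Theory} {p : (TL L).Structure ℕ → (Fin 4 → ℕ) → Prop}
    (hp : Q4 (TL L) ![0, 1, 2, 0] p)
    (hax : ∀ N, Ax T N → ∀ x y z : ℕ, p N ![x, y, z, x])
    {N : (TL L).Structure ℕ} (hN : Mods N (Th T)) (x y z : ℕ) :
    p N ![x, y, z, x] := by
  obtain ⟨σ, h1, h2⟩ := goodU hp
  have h3 : (σ : (TL L).Sentence) ∈ Th T := ⟨Or.inl h1, fun N' hN' => (h2 N').2 (hax N' hN')⟩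
  have h4 := (rz_iff N σ).1 (hN.realize_of_mem σ h3)
  exact (h2 N).1 h4 x y z

theorem useE {T : L.Theory} {p : (TL L).Structure ℕ → (Fin 4 → ℕ) → Prop}
    (hp : Q4 (TL L) ![0, 1, 0, 2] p)
    (hax : ∀ N, Ax T N → ∀ x y : ℕ, ∃ w : ℕ, p N ![x, y, x, w])
    {N : (TL L).Structure ℕ} (hN : Mods N (Th T)) (x y : ℕ) :
    ∃ w : ℕ, p N ![x, y, x, w] := by
  obtain ⟨σ, h1, h2⟩ := goodE hp
  have h3 : (σ : (TL L).Sentence) ∈ Th T := ⟨Or.inr h1, fun N' hN' => (h2 N').2 (hax N' hN')⟩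
  have h4 := (rz_iff N σ).1 (hN.realize_of_mem σ h3)
  exact (h2 N).1 h4 x y

end tl

theorem task : S_SYN2 := by
  intro L _ T
  refine ⟨Th T, fun σ hσ => hσ.1, fun N => ⟨fun hN => ?_, fun hN => ?_⟩⟩
  · constructor
    · intro m n x hmn h1 h2
      have hw := useU
        ((qLen m 0).imp (qLen n 0).not) (fun N' h' x y z => h'.len_disj m n x hmn) hN x 0 0
      exact hw h1 h2
    · intro n k v x y h1
      have hw := useU
        ((qSub n k v 0 1).imp ((qLen n 0).and (qLen k 1)))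
        (fun N' h' x y z => h'.sub_len n k v x y) hN x y 0
      exact hw h1
    · intro n φ x h1
      have hw := useU
        ((qSat n φ 0).imp (qLen n 0)) (fun N' h' x y z => h'.sat_len n φ x) hN x 0 0
      exact hw h1
    · intro n k v x y z h1 h2
      have hw := useU
        ((qSub n k v 0 1).imp ((qSub n k v 0 2).imp (Q4.eq 1 2)))
        (fun N' h' x y z => h'.sub_fun n k v x y z) hN x y z
      exact hw h1 h2
    · intro n k l v u x y z h1 h2
      have hw := useU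
        ((qSub n k v 0 1).imp ((qSub k l u 1 2).imp (qSub n l (v ∘ u) 0 2)))
        (fun N' h' x y z => h'.sub_comp n k l v u x y z) hN x y z
      exact hw h1 h2
    · intro n k v x h1
      obtain ⟨w, hw⟩ := useE
        ((qLen n 0).imp (qSub n k v 0 3))
        (fun N' h' x y => by
          by_cases h : Len N' n x
          · obtain ⟨w, hw⟩ := h'.sub_tot n k v x h
            exact ⟨w, fun _ => hw⟩
          · exact ⟨0, fun h'' => absurd h'' h⟩) hN x 0
      exact ⟨w, hw h1⟩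
    · intro n x y h1 h2 h3
      obtain ⟨w, hw⟩ := useE
        ((qLen n 0).imp ((qLen n 1).imp ((Q4.eq 0 1).not.imp
          (Q4.exi fun i : Fin n => (qSub n 1 (fun _ => i) 0 3).and
            (qSub n 1 (fun _ => i) 1 3).not))))
        (fun N' h' x y => by
          by_cases h : Len N' n x ∧ Len N' n y ∧ x ≠ y
          · obtain ⟨w, i, hw⟩ := h'.ext n x y h.1 h.2.1 h.2.2
            exact ⟨w, fun _ _ _ => ⟨i, hw⟩⟩
          · exact ⟨0, fun g1 g2 g3 => absurd ⟨g1, g2, g3⟩ h⟩) hN x y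
      obtain ⟨i, hi⟩ := hw h1 h2 h3
      exact ⟨w, i, hi⟩
    · intro n x y h1 h2
      obtain ⟨w, hw⟩ := useE
        ((qLen n 0).imp ((qLen 1 1).imp ((qSub (n + 1) n Fin.castSucc 3 0).and
          (qSub (n + 1) 1 (fun _ => Fin.last n) 3 1))))
        (fun N' h' x y => by
          by_cases h : Len N' n x ∧ Len N' 1 y
          · obtain ⟨w, hw⟩ := h'.amalg n x y h.1 h.2
            exact ⟨w, fun _ _ => hw⟩
          · exact ⟨0, fun g1 g2 => absurd ⟨g1, g2⟩ h⟩) hN x y
      exact ⟨w, hw h1 h2⟩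
    · obtain ⟨w, hw⟩ := useE (qLen 0 3)
        (fun N' h' x y => h'.nil) hN 0 0
      exact ⟨w, hw⟩
    · intro n
      obtain ⟨w, hw⟩ := useE
        ((qLen n 3).and (Q4.all fun i : Fin n => Q4.all fun j : Fin n =>
          Q4.cond (c := i ≠ j) fun _ => (qSat n (eqF n i j) 3).not))
        (fun N' h' x y => h'.inf n) hN 0 0
      exact ⟨w, hw⟩
    · intro n x
      have hw := useU (qSat n BoundedFormula.falsum 0).not
        (fun N' h' x y z => h'.sat_fal n x) hN x 0 0
      exact hw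
    · intro n φ ψ x h1
      have hw := useU
        ((qLen n 0).imp ((qSat n (φ.imp ψ) 0).iff ((qSat n φ 0).imp (qSat n ψ 0))))
        (fun N' h' x y z => h'.sat_imp n φ ψ x) hN x 0 0
      exact hw h1
    · intro n φ x y h1 h2
      have hw := useU
        ((qSub (n + 1) n Fin.castSucc 1 0).imp ((qSat n φ.all 0).imp (qSat (n + 1) φ 1)))
        (fun N' h' x y z => h'.sat_all n φ x y) hN x y 0
      exact hw h1 h2
    · intro n φ x h1 h2
      obtain ⟨w, hw⟩ := useE
        ((qLen n 0).imp ((qSat n φ.all 0).not.imp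
          ((qSub (n + 1) n Fin.castSucc 3 0).and (qSat (n + 1) φ 3).not)))
        (fun N' h' x y => by
          by_cases h : Len N' n x ∧ ¬ Sat N' n φ.all x
          · obtain ⟨w, hw⟩ := h'.sat_ex n φ x h.1 h.2
            exact ⟨w, fun _ _ => hw⟩
          · exact ⟨0, fun g1 g2 => absurd ⟨g1, g2⟩ h⟩) hN x 0
      exact ⟨w, hw h1 h2⟩
    · intro n i j x y z h1 h2
      have hw := useU
        ((qSub n 1 (fun _ => i) 0 1).imp ((qSub n 1 (fun _ => j) 0 2).imp
          ((qSat n (eqF n i j) 0).iff (Q4.eq 1 2))))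
        (fun N' h' x y z => h'.sat_eq n i j x y z) hN x y z
      exact hw h1 h2
    · intro n k R v x y h1
      have hw := useU
        ((qSub n k v 0 1).imp ((qSat n (relF n R v) 0).iff (qSat k (relF k R id) 1)))
        (fun N' h' x y z => h'.sat_rel n k R v x y) hN x y 0
      exact hw h1
    · intro σ hσ x h1
      have hw := useU
        ((qLen 0 0).imp (qSat 0 σ 0)) (fun N' h' x y z => h'.sat_T σ hσ x) hN x 0 0
      exact hw h1
  · refine @Theory.Model.mk (TL L) ℕ N (Th T) fun σ hσ => ?_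
    exact (rz_iff N σ).2 (hσ.2 N hN)

end Pool.Agent.W240.VPSYN2
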