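import Pool.Agent.W921.VP.DefsC

set_option autoImplicit false

/-! The structure of tuples of a model satisfies the axioms. -/

namespace Pool.Agent.W240.VPTUP

open FirstOrder Set
open FirstOrder.Language (Theory BoundedFormula Term)
open Pool.Agent.W921.VP

section

variable {L : FirstOrder.Language.{0, 0}} {M : Type} (S : L.Structure M)

theorem tLen (n : ℕ) (x : Σ n, Fin n → M) : Len (tup S) n x ↔ x.1 = n := Iff.rfl

theorem tSat (n : ℕ) (φ : L.BoundedFormula Empty n) (x : Σ n, Fin n → M) :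
    Sat (tup S) n φ x ↔ ∃ a : Fin n → M, x = ⟨n, a⟩ ∧
      @BoundedFormula.Realize L M S Empty n φ Empty.elim a := Iff.rfl

theorem tSub (n k : ℕ) (v : Fin k → Fin n) (x y : Σ n, Fin n → M) :
    Sub (tup S) n k v x y ↔ ∃ a : Fin n → M, x = ⟨n, a⟩ ∧ y = ⟨k, a ∘ v⟩ := Iff.rfl

theorem mk_inj {n : ℕ} {a b : Fin n → M} (h : (⟨n, a⟩ : Σ n, Fin n → M) = ⟨n, b⟩) : a = b := by
  simpa using h

theorem tSat' (n : ℕ) (φ : L.BoundedFormula Empty n) (a : Fin n → M) :
    Sat (tup S) n φ ⟨n, a⟩ ↔ @BoundedFormula.Realize L M S Empty n φ Empty.elim a := by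
  rw [tSat]
  constructor
  · rintro ⟨b, h1, h2⟩
    rwa [mk_inj h1]
  · intro h
    exact ⟨a, rfl, h⟩

theorem tSub' (n k : ℕ) (v : Fin k → Fin n) (a : Fin n → M) (y : Σ n, Fin n → M) :
    Sub (tup S) n k v ⟨n, a⟩ y ↔ y = ⟨k, a ∘ v⟩ := by
  rw [tSub]
  constructor
  · rintro ⟨b, h1, h2⟩
    rwa [mk_inj h1]
  · intro h
    exact ⟨a, rfl, h⟩

end

theorem task : S_TUP := by
  intro L _ T S hT
  constructor
  · constructor
    · intro m n x hmn h1 h2
      rw [tLen] at h1 h2
      exact hmn (h1.symm.trans h2)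
    · intro n k v x y h0
      obtain ⟨a, h1, h2⟩ := (tSub S _ _ _ _ _).1 h0
      rw [tLen, tLen, h1, h2]
      exact ⟨rfl, rfl⟩
    · intro n φ x h0
      obtain ⟨a, h1, h2⟩ := (tSat S _ _ _).1 h0
      rw [tLen, h1]
    · intro n k v x y z h0 h3
      obtain ⟨a, h1, h2⟩ := (tSub S _ _ _ _ _).1 h0
      rw [h1, tSub'] at h3
      rw [h2, h3]
    · intro n k l v w x y z h0 h3
      obtain ⟨a, h1, h2⟩ := (tSub S _ _ _ _ _).1 h0
      rw [h2, tSub'] at h3
      rw [h1, tSub', h3]
      rfl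
    · rintro n k v ⟨m, a⟩ h
      rw [tLen] at h
      simp only at h
      subst h
      exact ⟨⟨k, a ∘ v⟩, (tSub' S _ _ _ _ _).2 rfl⟩
    · rintro n ⟨m, a⟩ ⟨m', b⟩ h h' hne
      rw [tLen] at h h'
      simp only at h h'
      subst h
      subst h'
      have h3 : a ≠ b := fun e => hne (by rw [e])
      obtain ⟨i, hi⟩ := Function.ne_iff.1 h3
      refine ⟨⟨1, a ∘ fun _ => i⟩, i, (tSub' S _ _ _ _ _).2 rfl, fun h4 => hi ?_⟩
      rw [tSub'] at h4
      exact congrFun (mk_inj h4) 0
    · rintro n ⟨m, a⟩ ⟨m', b⟩ h h'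
      rw [tLen] at h h'
      simp only at h h'
      subst h
      subst h'
      refine ⟨⟨m + 1, Fin.snoc a (b 0)⟩, (tSub' S _ _ _ _ _).2 ?_, (tSub' S _ _ _ _ _).2 ?_⟩
      · congr 1
        funext i
        simp
      · congr 1
        funext i
        rw [Subsingleton.elim i 0]
        simp
    · exact ⟨⟨0, Fin.elim0⟩, rfl⟩
    · intro n
      refine ⟨⟨n, fun i => i.val⟩, rfl, fun i j hij h => ?_⟩
      rw [tSat'] at h
      have h1 : i.val = j.val := h
      exact hij (Fin.ext h1)
    · intro n x h0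
      obtain ⟨a, h1, h2⟩ := (tSat S _ _ _).1 h0
      exact h2
    · rintro n φ ψ ⟨m, a⟩ h
      rw [tLen] at h
      simp only at h
      subst h
      rw [tSat', tSat', tSat']
      exact Iff.rfl
    · intro n φ x y h0 h
      obtain ⟨a, h1, h2⟩ := (tSub S _ _ _ _ _).1 h0
      rw [h2, tSat'] at h
      rw [h1, tSat']
      have h3 := h (a (Fin.last n))
      have h4 : (Fin.snoc (a ∘ Fin.castSucc) (a (Fin.last n)) : Fin (n + 1) → ℕ) = a :=
        Fin.snoc_init_self a
      rwa [h4] at h3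
    · rintro n φ ⟨m, a⟩ h h'
      rw [tLen] at h
      simp only at h
      subst h
      rw [tSat'] at h'
      have h2 : ∃ c : ℕ, ¬ @BoundedFormula.Realize L ℕ S Empty _ φ Empty.elim (Fin.snoc a c) := by
        by_contra hcon
        push Not at hcon
        exact h' hcon
      obtain ⟨c, hc⟩ := h2
      refine ⟨⟨m + 1, Fin.snoc a c⟩, (tSub' S _ _ _ _ _).2 ?_, ?_⟩
      · congr 1
        funext i
        simp
      · rw [tSat']
        exact hc
    · intro n i j x y z h0 h3
      obtain ⟨a, h1, h2⟩ := (tSub S _ _ _ _ _).1 h0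
      rw [h1, tSub'] at h3
      rw [h1, h2, h3, tSat']
      have h4 : @BoundedFormula.Realize L ℕ S Empty n (eqF n i j) Empty.elim a ↔ a i = a j :=
        Iff.rfl
      rw [h4]
      constructor
      · intro h
        congr 1
        funext _
        exact h
      · intro h
        exact congrFun (mk_inj h) 0
    · intro n k R v x y h0
      obtain ⟨a, h1, h2⟩ := (tSub S _ _ _ _ _).1 h0
      rw [h1, h2, tSat', tSat']
      exact Iff.rfl
    · rintro σ hσ ⟨m, a⟩ h
      rw [tLen] at h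
      simp only at h
      subst h
      rw [tSat']
      have h1 := hT.realize_of_mem σ hσ
      unfold Language.Sentence.Realize Language.Formula.Realize at h1
      have h2 : ∀ (e e' : Empty → ℕ) (b b' : Fin 0 → ℕ),
          @BoundedFormula.Realize L ℕ S Empty 0 σ e b →
          @BoundedFormula.Realize L ℕ S Empty 0 σ e' b' := fun e e' b b' h => by
        rw [Subsingleton.elim e' e, Subsingleton.elim b' b]
        exact h
      exact h2 _ _ _ _ h1
  · have hinj : Function.Injective (fun m : ℕ => (⟨⟨1, fun _ => m⟩, rfl⟩ : Pt (tup S))) := by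
      intro m m' h
      have h1 := congrArg Subtype.val h
      exact congrFun (mk_inj h1) 0
    have hsur : Function.Surjective (fun m : ℕ => (⟨⟨1, fun _ => m⟩, rfl⟩ : Pt (tup S))) := by
      rintro ⟨⟨n, a⟩, h⟩
      have h' : n = 1 := h
      subst h'
      refine ⟨a 0, ?_⟩
      apply Subtype.ext
      simp only
      congr 1
      funext i
      rw [Subsingleton.elim i 0]
    refine ⟨Equiv.ofBijective _ ⟨hinj, hsur⟩, fun n R s => ?_⟩
    simp only [Equiv.ofBijective_apply]
    constructor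
    · intro h
      refine ⟨⟨n, s⟩, ⟨rfl, fun i => (tSub' S _ _ _ _ _).2 rfl⟩, ?_⟩
      rw [tSat']
      exact h
    · rintro ⟨⟨m, b⟩, ⟨h1, h2⟩, h3⟩
      have h1' : m = n := h1
      subst h1'
      rw [tSat'] at h3
      have h4 : b = s := by
        funext i
        have := (tSub' S _ _ _ _ _).1 (h2 i)
        exact (congrFun (mk_inj this) 0).symm
      rw [h4] at h3
      exact h3

end Pool.Agent.W240.VPTUP
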