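import Pool.Agent.W921.VP.DefsC

set_option autoImplicit false

/-! `Tw` is definable. -/

namespace Pool.Agent.W240.VPTWD

open FirstOrder Set
open FirstOrder.Language (Theory BoundedFormula Term)
open Pool.Agent.W921.VP

section

variable {L : FirstOrder.Language.{0, 0}} {n : ℕ}

/-- Definable predicates. -/
def Df (P : ∀ (M : Type) (_ : L.Structure M), (Fin 2 → M) → (Fin n → M) → Prop) : Prop :=
  ∃ φ : L.BoundedFormula (Fin 2) n, ∀ (M : Type) (S : L.Structure M) (v : Fin 2 → M) (w : Fin n → M),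
    @BoundedFormula.Realize L M S (Fin 2) n φ v w ↔ P M S v w

theorem Df.eq (a b : Fin 2 ⊕ Fin n) :
    Df (L := L) (n := n) (fun _ _ v w => Sum.elim v w a = Sum.elim v w b) :=
  ⟨BoundedFormula.equal (Term.var a) (Term.var b), fun _ _ _ _ => Iff.rfl⟩

theorem Df.rel {k : ℕ} (R : L.Relations k) (t : Fin k → Fin 2 ⊕ Fin n) :
    Df (L := L) (n := n) (fun _ S v w => S.RelMap R (fun i => Sum.elim v w (t i))) :=
  ⟨BoundedFormula.rel R (fun i => Term.var (t i)), fun _ _ _ _ => Iff.rfl⟩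

theorem Df.imp {P Q : ∀ (M : Type) (_ : L.Structure M), (Fin 2 → M) → (Fin n → M) → Prop}
    (hP : Df P) (hQ : Df Q) : Df (fun M S v w => P M S v w → Q M S v w) := by
  obtain ⟨φ, hφ⟩ := hP
  obtain ⟨ψ, hψ⟩ := hQ
  exact ⟨φ.imp ψ, fun M S v w => ⟨fun h hp => (hψ M S v w).1 (h ((hφ M S v w).2 hp)),
    fun h hp => (hψ M S v w).2 (h ((hφ M S v w).1 hp))⟩⟩

theorem Df.fal : Df (L := L) (n := n) (fun _ _ _ _ => False) :=
  ⟨BoundedFormula.falsum, fun _ _ _ _ => Iff.rfl⟩

theorem Df.congr {P Q : ∀ (M : Type) (_ : L.Structure M), (Fin 2 → M) → (Fin n → M) → Prop}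
    (hP : Df P) (h : ∀ M S v w, P M S v w ↔ Q M S v w) : Df Q := by
  obtain ⟨φ, hφ⟩ := hP
  exact ⟨φ, fun M S v w => (hφ M S v w).trans (h M S v w)⟩

theorem Df.not {P : ∀ (M : Type) (_ : L.Structure M), (Fin 2 → M) → (Fin n → M) → Prop}
    (hP : Df P) : Df (fun M S v w => ¬ P M S v w) :=
  (hP.imp Df.fal).congr fun _ _ _ _ => Iff.rfl

theorem Df.and {P Q : ∀ (M : Type) (_ : L.Structure M), (Fin 2 → M) → (Fin n → M) → Prop}
    (hP : Df P) (hQ : Df Q) : Df (fun M S v w => P M S v w ∧ Q M S v w) :=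
  (hP.imp hQ.not).not.congr fun M S v w => by tauto

theorem Df.iff {P Q : ∀ (M : Type) (_ : L.Structure M), (Fin 2 → M) → (Fin n → M) → Prop}
    (hP : Df P) (hQ : Df Q) : Df (fun M S v w => (P M S v w ↔ Q M S v w)) :=
  ((hP.imp hQ).and (hQ.imp hP)).congr fun M S v w => by tauto

theorem Df.all {ι : Type} [Finite ι]
    {P : ι → ∀ (M : Type) (_ : L.Structure M), (Fin 2 → M) → (Fin n → M) → Prop}
    (hP : ∀ i, Df (P i)) : Df (fun M S v w => ∀ i, P i M S v w) := by
  choose φ hφ using hP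
  refine ⟨BoundedFormula.iInf φ, fun M S v w => ?_⟩
  rw [BoundedFormula.realize_iInf]
  exact forall_congr' fun i => hφ i M S v w

/-- The case distinction at one place. -/
def Cond {M : Type} (v : Fin 2 → M) (w : Fin n → M) (c : Fin n → Fin 3) (i : Fin n) : Prop :=
  (c i = 0 ∧ w i = v 0) ∨ (c i = 1 ∧ w i ≠ v 0 ∧ w i = v 1) ∨
    (c i = 2 ∧ w i ≠ v 0 ∧ w i ≠ v 1)

theorem Df.cond (c : Fin n → Fin 3) (i : Fin n) :
    Df (L := L) (n := n) (fun _ _ v w => Cond v w c i) := by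
  have e0 : Df (L := L) (n := n) (fun _ _ v w => w i = v 0) :=
    (Df.eq (Sum.inr i) (Sum.inl 0)).congr fun _ _ _ _ => Iff.rfl
  have e1 : Df (L := L) (n := n) (fun _ _ v w => w i = v 1) :=
    (Df.eq (Sum.inr i) (Sum.inl 1)).congr fun _ _ _ _ => Iff.rfl
  have h3 : c i = 0 ∨ c i = 1 ∨ c i = 2 := by
    generalize c i = x
    fin_cases x <;> simp
  rcases h3 with h | h | h
  · refine e0.congr fun M S v w => ?_
    unfold Cond
    rw [h]
    simp
  · refine (e0.not.and e1).congr fun M S v w => ?_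
    unfold Cond
    rw [h]
    simp
  · refine (e0.not.and e1.not).congr fun M S v w => ?_
    unfold Cond
    rw [h]
    simp

/-- The new variable at one place. -/
def tt (c : Fin n → Fin 3) (i : Fin n) : Fin 2 ⊕ Fin n :=
  if c i = 0 then Sum.inl 1 else if c i = 1 then Sum.inl 0 else Sum.inr i

theorem tt_eq {M : Type} (v : Fin 2 → M) (w : Fin n → M) (c : Fin n → Fin 3) (i : Fin n)
    (h : Cond v w c i) : Sum.elim v w (tt c i) = sw (v 0) (v 1) (w i) := by
  unfold Cond at h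
  unfold tt sw
  rcases h with ⟨h1, h2⟩ | ⟨h1, h2, h3⟩ | ⟨h1, h2, h3⟩
  · rw [if_pos h1, if_pos h2]
    rfl
  · rw [if_neg (by rw [h1]; decide), if_pos h1, if_neg h2, if_pos h3]
    rfl
  · rw [if_neg (by rw [h1]; decide), if_neg (by rw [h1]; decide), if_neg h2, if_neg h3]
    rfl

theorem exists_cond {M : Type} (v : Fin 2 → M) (w : Fin n → M) :
    ∃ c : Fin n → Fin 3, ∀ i, Cond v w c i := by
  classical
  refine ⟨fun i => if w i = v 0 then 0 else if w i = v 1 then 1 else 2, fun i => ?_⟩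
  unfold Cond
  by_cases h1 : w i = v 0
  · simp [h1]
  · by_cases h2 : w i = v 1
    · simp [h1, h2] at *
      simp [h1]
    · simp [h1, h2]

end

theorem task : S_TWD := by
  intro L _ n R
  have h1 : Df (L := L) (n := n) (fun _ S v w => ∀ c : Fin n → Fin 3,
      (∀ i, Cond v w c i) → (S.RelMap R (fun i => Sum.elim v w (tt c i)) ↔
        S.RelMap R (fun i => Sum.elim v w (Sum.inr i)))) :=
    Df.all fun c => (Df.all fun i => Df.cond c i).imp
      ((Df.rel R (tt c)).iff (Df.rel R fun i => Sum.inr i))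
  obtain ⟨φ, hφ⟩ := h1
  refine ⟨BoundedFormula.relabel (Sum.inr : Fin 2 → Empty ⊕ Fin 2) φ.alls, fun M S x y => ?_⟩
  let _ := S
  refine (FirstOrder.Language.Formula.realize_relabel_sumInr φ.alls).trans ?_
  refine BoundedFormula.realize_alls.trans ?_
  constructor
  · intro H s
    obtain ⟨c, hc⟩ := exists_cond ![x, y] s
    have := (hφ M S ![x, y] s).1 (H s) c hc
    have e1 : (fun i => Sum.elim ![x, y] s (tt c i)) = fun i => sw x y (s i) :=
      funext fun i => tt_eq ![x, y] s c i (hc i)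
    rw [e1] at this
    exact this
  · intro H s
    refine (hφ M S ![x, y] s).2 fun c hc => ?_
    have e1 : (fun i => Sum.elim ![x, y] s (tt c i)) = fun i => sw x y (s i) :=
      funext fun i => tt_eq ![x, y] s c i (hc i)
    rw [e1]
    exact H s

end Pool.Agent.W240.VPTWD
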